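import Pool.Agent.HyP.PP
import Pool.Agent.DgE.CrtN
import Pool.Agent.HyD.Sqf

/-!
# Package HyP-Fin: all moduli

Complete proofs, as DgP/Final (`nm_split`, `nm_def`).

* `en_split`: `m > 0`: `EN r m c = ∏ p ∈ m.primeFactors, EN r (p ^ v_p(m)) c`: the Chinese remainder
  theorem for pairs (`DgE.crtn_mul` with two unknowns, or directly as in PtC/Crt) and
  `Nat.recOnPosPrimePosCoprime`.
* `en_all`: `dfun_prodPF` with `en_pp` (`k = v_p(m)`: `DgP.val_def`, `M = m`), the bound `m ^ 2`;
  `m = 0`: the value is `0`.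
* `en_two`: `PrimeCase 2` is `HyD.hn_prime` (`HyD.HN` and `EN 2` are the same function).
-/

set_option autoImplicit false

namespace Pool.Agent.HyP

open Finset Pool.Agent.Grz Pool.Agent.GAvg Pool.Agent.PTr Pool.Agent.MTr Pool.Agent.LPC
  Pool.Agent.ECD
open scoped Classical

private theorem en_pi_Fin {D : ℕ} (r m : ℕ) (c : Fin (D + 1) → ℕ) :
    EN r m c = #{x ∈ Fintype.piFinset (fun _ : Fin 2 => range m) |
      x 1 ^ r ≡ ev c (x 0) [MOD m]} := by
  unfold EN
  refine Finset.card_nbij' (fun z => ![z.1, z.2]) (fun x => (x 0, x 1)) ?_ ?_ ?_ ?_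
  · intro z hz
    simp only [coe_filter, mem_product, mem_range, Set.mem_ofPred_eq,
      Fintype.mem_piFinset] at hz ⊢
    refine ⟨fun i => ?_, hz.2⟩
    fin_cases i
    · exact hz.1.1
    · exact hz.1.2
  · intro x hx
    simp only [coe_filter, mem_product, mem_range, Set.mem_ofPred_eq,
      Fintype.mem_piFinset] at hx ⊢
    exact ⟨⟨hx.1 0, hx.1 1⟩, hx.2⟩
  · intro z _
    rfl
  · intro x _
    funext i
    fin_cases i <;> rfl

private theorem ev_mod_Fin {D : ℕ} (m x : ℕ) (c : Fin (D + 1) → ℕ) :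
    ev c (x % m) ≡ ev c x [MOD m] := by
  unfold ev
  rw [← ZMod.natCast_eq_natCast_iff]
  push_cast
  refine Finset.sum_congr rfl fun i _ => ?_
  rw [ZMod.natCast_mod]

private theorem en_mul_Fin {D r x y : ℕ} (hx : 0 < x) (hy : 0 < y) (hxy : Nat.Coprime x y)
    (c : Fin (D + 1) → ℕ) : EN r (x * y) c = EN r x c * EN r y c := by
  have h := DgE.crtn_mul (n := 2) (fun m x => x 1 ^ r ≡ ev c (x 0) [MOD m]) (fun m x => by
    have h1 : (x 1 % m) ^ r ≡ x 1 ^ r [MOD m] := (Nat.mod_modEq (x 1) m).pow r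
    have h2 := ev_mod_Fin m (x 0) c
    exact ⟨fun h => (h1.symm.trans h).trans h2, fun h => (h1.trans h).trans h2.symm⟩)
    (fun a b x hab => (Nat.modEq_and_modEq_iff_modEq_mul hab).symm) hx hy hxy
  rw [en_pi_Fin, en_pi_Fin, en_pi_Fin]
  convert h

private theorem en_one_Fin {D : ℕ} (r : ℕ) (c : Fin (D + 1) → ℕ) : EN r 1 c = 1 := by
  unfold EN
  rw [Finset.filter_true_of_mem (fun z _ => Nat.modEq_one)]
  simp

private theorem en_le_Fin {D : ℕ} (r m : ℕ) (c : Fin (D + 1) → ℕ) : EN r m c ≤ m * m := by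
  unfold EN
  refine (Finset.card_filter_le _ _).trans ?_
  rw [Finset.card_product, Finset.card_range]

theorem en_split {D r m : ℕ} (hm : 0 < m) (c : Fin (D + 1) → ℕ) :
    EN r m c = ∏ p ∈ m.primeFactors, EN r (p ^ m.factorization p) c := by
  revert hm
  refine Nat.recOnPosPrimePosCoprime (motive := fun m => 0 < m →
    EN r m c = ∏ p ∈ m.primeFactors, EN r (p ^ m.factorization p) c) ?_ ?_ ?_ ?_ m
  · intro p k hp hk _
    rw [Nat.primeFactors_prime_pow hk.ne' hp, Finset.prod_singleton, hp.factorization_pow,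
      Finsupp.single_eq_same]
  · intro h
    exact absurd h (lt_irrefl 0)
  · intro _
    rw [Nat.primeFactors_one, Finset.prod_empty, en_one_Fin]
  · intro x y hx hy hxy ihx ihy _
    have hx0 : 0 < x := by omega
    have hy0 : 0 < y := by omega
    rw [en_mul_Fin hx0 hy0 hxy, hxy.primeFactors_mul,
      Finset.prod_union hxy.disjoint_primeFactors, ihx hx0, ihy hy0]
    congr 1
    · refine Finset.prod_congr rfl fun p hp => ?_
      rw [Nat.factorization_eq_of_coprime_left hxy
        (Nat.mem_primeFactors_iff_mem_primeFactorsList.1 hp)]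
    · refine Finset.prod_congr rfl fun p hp => ?_
      rw [Nat.factorization_eq_of_coprime_right hxy
        (Nat.mem_primeFactors_iff_mem_primeFactorsList.1 hp)]

/-- the numbers of the solutions of `y ^ r = f(x)` modulo all numbers -/
theorem en_all {D n r : ℕ} (hr : 0 < r) (H : PrimeCase r) {m : (Fin n → ℕ) → ℕ}
    {c : Fin (D + 1) → (Fin n → ℕ) → ℕ} (hm : DFun n m) (hc : ∀ i, DFun n (c i)) :
    DFun n (fun v => EN r (m v) (fun i => c i v)) := by
  have hpp := en_pp (n := n + 1) hr H (c := fun i w => c i fun j => w j.succ)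
    (p := fun w => w 0)
    (k := fun w => if (w 0).Prime then (m fun j => w j.succ).factorization (w 0) else 0)
    (M := fun w => m fun j => w j.succ) (fun i => (hc i).weak) (DFun.proj 0)
    (DgP.val_def (DFun.proj 0) hm.weak) hm.weak
  have key : ∀ v : Fin n → ℕ, 0 < m v → ∀ q ∈ (m v).primeFactors,
      (if q.Prime ∧ q ^ (if q.Prime then (m v).factorization q else 0) ≤ m v then
        EN r (q ^ (if q.Prime then (m v).factorization q else 0)) (fun i => c i v)
        else 0) = EN r (q ^ (m v).factorization q) (fun i => c i v) := by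
    intro v hv q hq
    have hqp := Nat.prime_of_mem_primeFactors hq
    rw [if_pos hqp, if_pos ⟨hqp, Nat.ordProj_le q hv.ne'⟩]
  have hprod := PtC.dfun_prodPF (n := n) (m := m) (B := fun v => m v * m v + 1)
    (g := fun q v => if q.Prime ∧ q ^ (if q.Prime then (m v).factorization q else 0) ≤ m v then
        EN r (q ^ (if q.Prime then (m v).factorization q else 0)) (fun i => c i v)
        else 0) hpp hm ((hm.mul hm).add (DFun.const 1))
    (fun v => by
      rcases Nat.eq_zero_or_pos (m v) with h0 | h0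
      · rw [h0, Nat.primeFactors_zero, Finset.prod_empty]
        exact Nat.le_add_left 1 _
      · rw [Finset.prod_congr rfl (key v h0), ← en_split h0]
        exact (en_le_Fin _ _ _).trans (Nat.le_succ _))
  have h := DFun.ite (Delta0.eqFun hm (DFun.const 0)) (DFun.const 0) hprod
  refine dfun_congr h fun v => ?_
  by_cases h0 : m v = 0
  · rw [if_pos h0, h0]
    exact Nat.le_zero.1 (en_le_Fin _ _ _)
  · rw [if_neg h0, Finset.prod_congr rfl (key v (Nat.pos_of_ne_zero h0)),
      ← en_split (Nat.pos_of_ne_zero h0)]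

theorem pc_two : PrimeCase 2 := by
  intro D n p c hp hc
  exact HyD.hn_prime hp hc

/-- the numbers of the solutions of `y ^ 2 = f(x)` modulo all numbers -/
theorem en_two {D n : ℕ} {m : (Fin n → ℕ) → ℕ} {c : Fin (D + 1) → (Fin n → ℕ) → ℕ}
    (hm : DFun n m) (hc : ∀ i, DFun n (c i)) :
    DFun n (fun v => EN 2 (m v) (fun i => c i v)) :=
  en_all (by norm_num) pc_two hm hc

end Pool.Agent.HyP
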