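import Mathlib

/-!
# Equations `y ^ r = f(x)` modulo all numbers: definitions

Project HYP, part HyP (`MP_a56640_lc`). `f = ∑ c_i x ^ i` has degree at most `D`; `p` is a prime.

* `ev c x = f(x)`; `EN r m c`: the number of the solutions of `y ^ r = f(x)` modulo `m`;
* `UU r p j u`: the number of the `y` modulo `p ^ j`, prime to `p`, with `y ^ r = u`; `UN r p j c`: the
  number of the solutions of `y ^ r = f(x)` modulo `p ^ j` with `y` prime to `p`;
* `tay c a q`: the coefficients of `f (a + q T)`; `gd c p e s a` the coefficients of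
  `f (a + p ^ s T) / p ^ e`;
* `Cn c p e s a`: `p ^ e` divides all coefficients of `f (a + p ^ s T)`;
* `Nd c p e s a`: moreover this does not hold for `s - 1`, or `s = 0` (a node);
* `jr r p k e = min (k - e) (2 v_p(r) + 1)`.
-/

set_option autoImplicit false

namespace Pool.Agent.HyP

open Finset

/-- the value of the polynomial with the coefficients `c` -/
def ev {D : ℕ} (c : Fin (D + 1) → ℕ) (x : ℕ) : ℕ := ∑ i, c i * x ^ (i : ℕ)

/-- the number of the solutions of `y ^ r = ∑ c_i x ^ i` modulo `m` -/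
def EN (r : ℕ) {D : ℕ} (m : ℕ) (c : Fin (D + 1) → ℕ) : ℕ :=
  #{z ∈ range m ×ˢ range m | z.2 ^ r ≡ ev c z.1 [MOD m]}

/-- the number of the `y` modulo `p ^ j`, prime to `p`, with `y ^ r = u` -/
def UU (r p j u : ℕ) : ℕ := #{y ∈ range (p ^ j) | ¬ p ∣ y ∧ y ^ r ≡ u [MOD p ^ j]}

/-- the number of the solutions of `y ^ r = ∑ c_i x ^ i` modulo `p ^ j` with `y` prime to `p` -/
def UN (r : ℕ) {D : ℕ} (p j : ℕ) (c : Fin (D + 1) → ℕ) : ℕ :=
  ∑ x ∈ range (p ^ j), UU r p j (ev c x)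

/-- the coefficients of the polynomial in `a + q T` -/
def tay {D : ℕ} (c : Fin (D + 1) → ℕ) (a q : ℕ) (i : Fin (D + 1)) : ℕ :=
  ∑ j : Fin (D + 1), c j * (j : ℕ).choose i * a ^ ((j : ℕ) - i) * q ^ (i : ℕ)

/-- the coefficients of the polynomial in `a + p ^ s T`, divided by `p ^ e` -/
def gd {D : ℕ} (c : Fin (D + 1) → ℕ) (p e s a : ℕ) (i : Fin (D + 1)) : ℕ :=
  tay c a (p ^ s) i / p ^ e

/-- `p ^ e` divides all coefficients of the polynomial in `a + p ^ s T` -/
def Cn {D : ℕ} (c : Fin (D + 1) → ℕ) (p e s a : ℕ) : Prop := ∀ i, p ^ e ∣ tay c a (p ^ s) i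

/-- nodes -/
def Nd {D : ℕ} (c : Fin (D + 1) → ℕ) (p e s a : ℕ) : Prop :=
  Cn c p e s a ∧ (s = 0 ∨ ¬ Cn c p e (s - 1) a)

/-- the exponent modulo which the units are counted -/
def jr (r p k e : ℕ) : ℕ := min (k - e) (2 * r.factorization p + 1)

end Pool.Agent.HyP
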