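import Pool.Agent.HyP.Tay

/-!
# Package HyP-Few: few nodes

Complete proof. `s = 0`: the range has one element. Let `s ≥ 1` and suppose there are `D + 1`
different nodes `a_0, …, a_D < p ^ s`. Then `p ^ e ∣ ev c (a_i)` (`cn_dvd` with `t = 0`), and for
`i ≠ j` the valuation `w_ij` of `a_i - a_j` is at most `s - 1`. Choose `i₀` such that
`W_i = ∑_{j ≠ i} w_ij` is maximal for `i = i₀`. I claim `Cn c p e (s - 1) (a_{i₀})`, a contradiction.
Lagrange interpolation (`Lagrange.interpolate`, over `ℚ` or `ℚ_[p]`; `f` has degree at most `D`):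
`f(a_{i₀} + p ^ (s - 1) T) = ∑_i f(a_i) / V_i ∏_{j ≠ i} (a_{i₀} - a_j + p ^ (s - 1) T)`, where
`V_i = ∏_{j ≠ i} (a_i - a_j)` has the valuation `W_i`. The factor for `j ≠ i₀` is `p ^ (w_{i₀ j})` times a
`p`-integral polynomial, the factor for `j = i₀` is `p ^ (s - 1) T`. So the product is divisible by
`p ^ (W_{i₀})` for `i = i₀`, and for `i ≠ i₀` by `p` to the power
`(s - 1) + W_{i₀} - w_{i₀ i} ≥ W_{i₀} ≥ W_i`. Hence every summand is `p ^ e` times a `p`-integral
polynomial.

(To avoid fractions: multiply with `∏_i V_i`, or with `V = p ^ W` times a number prime to `p`;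
`Polynomial.C_dvd_iff_dvd_coeff` and the content are convenient. Another proof: by induction on
`s`, for all `f`: if `p ^ b` is the exact power of `p` in the content of `f`, `b < e`, `g = f / p ^ b`, then the
nodes lie over the zeros `t` of `g` modulo `p`, the ones over `t` are the nodes of `f (t + p T)`, and the
degree modulo `p` of `f (t + p T)` divided by its content is at most the multiplicity of `t`, so the
number of the nodes is at most the degree of `g` modulo `p`, if `s ≥ 1`.)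
-/

set_option autoImplicit false

namespace Pool.Agent.HyP

open Finset
open scoped Classical

private theorem tay_gen_Few {R : Type*} [CommSemiring R] {D : ℕ} (c : Fin (D + 1) → ℕ) (a q : ℕ)
    (t : R) : ∑ i : Fin (D + 1), (tay c a q i : R) * t ^ (i : ℕ) =
      ∑ j : Fin (D + 1), (c j : R) * ((a : R) + (q : R) * t) ^ (j : ℕ) := by
  simp only [tay, Nat.cast_sum, Finset.sum_mul]
  rw [Finset.sum_comm]
  refine Finset.sum_congr rfl fun j _ => ?_
  rw [add_comm (a : R), add_pow, Finset.mul_sum]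
  rw [Fin.sum_univ_eq_sum_range (fun i =>
    ((c j * (j : ℕ).choose i * a ^ ((j : ℕ) - i) * q ^ i : ℕ) : R) * t ^ i) (D + 1)]
  have hsub : range ((j : ℕ) + 1) ⊆ range (D + 1) := by
    intro x hx
    rw [mem_range] at hx ⊢
    have := j.2
    omega
  rw [← Finset.sum_subset hsub]
  · refine Finset.sum_congr rfl fun m _ => ?_
    push_cast
    ring
  · intro x _ hx
    rw [mem_range, not_lt] at hx
    rw [Nat.choose_eq_zero_of_lt (by omega)]
    simp

private theorem dec_Few {p : ℕ} (hp : p.Prime) {s : ℕ} (x : ℤ) (hx : x ≠ 0)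
    (hlt : |x| < (p : ℤ) ^ s) :
    ∃ w : ℕ, ∃ u : ℤ, x = (p : ℤ) ^ w * u ∧ ¬ (p : ℤ) ∣ u ∧ w ≤ s - 1 := by
  have hf : FiniteMultiplicity (p : ℤ) x := by
    rw [Int.finiteMultiplicity_iff]
    refine ⟨?_, hx⟩
    rw [Int.natAbs_natCast]
    exact hp.one_lt.ne'
  obtain ⟨u, hu, hnu⟩ := hf.exists_eq_pow_mul_and_not_dvd
  refine ⟨_, u, hu, hnu, ?_⟩
  have hle : (p : ℤ) ^ multiplicity (p : ℤ) x ≤ |x| :=
    Int.le_of_dvd (abs_pos.2 hx) ((dvd_abs _ _).2 (Dvd.intro _ hu.symm))
  have hlt2 : (p : ℤ) ^ multiplicity (p : ℤ) x < (p : ℤ) ^ s := lt_of_le_of_lt hle hlt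
  have : multiplicity (p : ℤ) x < s :=
    (pow_lt_pow_iff_right₀ (by exact_mod_cast hp.one_lt)).1 hlt2
  omega

private theorem lag_Few (S : Finset ℕ) (f : Polynomial ℤ) (hf : f.natDegree < #S) :
    Polynomial.C (∏ i ∈ S, ∏ j ∈ S.erase i, ((i : ℤ) - j)) * f =
      ∑ i ∈ S, Polynomial.C ((∏ k ∈ S.erase i, ∏ j ∈ S.erase k, ((k : ℤ) - j)) *
        f.eval (i : ℤ)) * ∏ j ∈ S.erase i, (Polynomial.X - Polynomial.C (j : ℤ)) := by
  have hinj : Set.InjOn (fun i : ℕ => (i : ℤ)) (S : Set ℕ) := fun x _ y _ h => by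
    have h2 : (x : ℤ) = (y : ℤ) := h
    exact_mod_cast h2
  have hpos : 0 < #S := lt_of_le_of_lt (Nat.zero_le _) hf
  refine Polynomial.eq_of_degrees_lt_of_eval_index_eq S hinj ?_ ?_ ?_
  · refine lt_of_le_of_lt Polynomial.degree_le_natDegree ?_
    exact_mod_cast lt_of_le_of_lt (Polynomial.natDegree_C_mul_le _ _) hf
  · refine lt_of_le_of_lt Polynomial.degree_le_natDegree ?_
    have h1 : (∑ i ∈ S, Polynomial.C ((∏ k ∈ S.erase i, ∏ j ∈ S.erase k, ((k : ℤ) - j)) *
        f.eval (i : ℤ)) * ∏ j ∈ S.erase i,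
          (Polynomial.X - Polynomial.C (j : ℤ))).natDegree ≤ #S - 1 := by
      refine Polynomial.natDegree_sum_le_of_forall_le _ _ fun i hi => ?_
      refine (Polynomial.natDegree_C_mul_le _ _).trans ?_
      refine (Polynomial.natDegree_prod_le _ _).trans ?_
      simp only [Polynomial.natDegree_X_sub_C, sum_const, smul_eq_mul, mul_one]
      rw [card_erase_of_mem hi]
    exact_mod_cast lt_of_le_of_lt h1 (by omega)
  · intro m hm
    rw [Polynomial.eval_mul, Polynomial.eval_C, Polynomial.eval_finsetSum,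
      Finset.sum_eq_single m]
    · rw [Polynomial.eval_mul, Polynomial.eval_C, Polynomial.eval_prod]
      simp only [Polynomial.eval_sub, Polynomial.eval_X, Polynomial.eval_C]
      rw [← Finset.mul_prod_erase S _ hm]
      ring
    · intro i hi him
      have h0 : ∏ j ∈ S.erase i, Polynomial.eval (m : ℤ)
          (Polynomial.X - Polynomial.C (j : ℤ)) = 0 := by
        refine Finset.prod_eq_zero (mem_erase.2 ⟨him.symm, hm⟩) ?_
        simp
      rw [Polynomial.eval_mul, Polynomial.eval_prod, h0, mul_zero]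
    · exact fun h => absurd hm h

private theorem main_Few {D : ℕ} (c : Fin (D + 1) → ℕ) {p : ℕ} (hp : p.Prime) (e s : ℕ)
    (S : Finset ℕ) (hS : ∀ a ∈ S, a < p ^ s) (hd : ∀ a ∈ S, p ^ e ∣ ev c a)
    (hD : D < #S) : ∃ a ∈ S, Cn c p e (s - 1) a := by
  have hdec : ∀ i j : ℕ, ∃ w : ℕ, ∃ u : ℤ, w ≤ s - 1 ∧ (i = j → w = s - 1) ∧
      (i ∈ S → j ∈ S → i ≠ j → (i : ℤ) - j = (p : ℤ) ^ w * u ∧ ¬ (p : ℤ) ∣ u) := by
    intro i j
    by_cases h : i ∈ S ∧ j ∈ S ∧ i ≠ j
    · obtain ⟨hi, hj, hij⟩ := h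
      have hi' : (i : ℤ) < (p : ℤ) ^ s := by exact_mod_cast hS i hi
      have hj' : (j : ℤ) < (p : ℤ) ^ s := by exact_mod_cast hS j hj
      obtain ⟨w, u, h1, h2, h3⟩ := dec_Few hp (s := s) ((i : ℤ) - j)
        (sub_ne_zero.2 (by exact_mod_cast hij)) (by rw [abs_lt]; constructor <;> omega)
      exact ⟨w, u, h3, fun hh => absurd hh hij, fun _ _ _ => ⟨h1, h2⟩⟩
    · exact ⟨s - 1, 0, le_rfl, fun _ => rfl, fun h1 h2 h3 => absurd ⟨h1, h2, h3⟩ h⟩
  choose w u hw hwd hwu using hdec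
  have hne : S.Nonempty := Finset.card_pos.1 (by omega)
  obtain ⟨a, ha, hmax⟩ := Finset.exists_max_image S (fun i => ∑ j ∈ S.erase i, w i j) hne
  refine ⟨a, ha, ?_⟩
  set W : ℕ → ℕ := fun i => ∑ j ∈ S.erase i, w i j with hW
  set f : Polynomial ℤ := ∑ j : Fin (D + 1), Polynomial.C (c j : ℤ) * Polynomial.X ^ (j : ℕ)
    with hf
  have hfd : f.natDegree ≤ D := by
    refine Polynomial.natDegree_sum_le_of_forall_le _ _ fun j _ => ?_
    refine (Polynomial.natDegree_C_mul_X_pow_le _ _).trans ?_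
    have := j.2
    omega
  have hfe : ∀ x : ℕ, f.eval (x : ℤ) = (ev c x : ℤ) := by
    intro x
    rw [hf, Polynomial.eval_finsetSum]
    unfold ev
    push_cast
    refine Finset.sum_congr rfl fun j _ => ?_
    simp
  have hV : ∀ i ∈ S, ∏ j ∈ S.erase i, ((i : ℤ) - j) =
      (p : ℤ) ^ W i * ∏ j ∈ S.erase i, u i j := by
    intro i hi
    rw [hW]
    simp only
    rw [← Finset.prod_pow_eq_pow_sum, ← Finset.prod_mul_distrib]
    refine Finset.prod_congr rfl fun j hj => ?_
    rw [mem_erase] at hj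
    exact (hwu i j hi hj.2 hj.1.symm).1
  have hL := congrArg (fun g : Polynomial ℤ =>
    g.comp (Polynomial.C (a : ℤ) + Polynomial.C ((p : ℤ) ^ (s - 1)) * Polynomial.X))
    (lag_Few S f (lt_of_le_of_lt hfd hD))
  simp only at hL
  rw [Polynomial.mul_comp, Polynomial.C_comp, Polynomial.sum_comp S] at hL
  have hdvd : Polynomial.C ((p : ℤ) ^ (e + ∑ k ∈ S, W k)) ∣
      Polynomial.C (∏ i ∈ S, ∏ j ∈ S.erase i, ((i : ℤ) - j)) *
      f.comp (Polynomial.C (a : ℤ) + Polynomial.C ((p : ℤ) ^ (s - 1)) * Polynomial.X) := by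
    rw [hL]
    refine Finset.dvd_sum fun i hi => ?_
    rw [Polynomial.mul_comp, Polynomial.C_comp, Polynomial.prod_comp]
    have h1 : (p : ℤ) ^ (∑ k ∈ S.erase i, W k) ∣
        ∏ k ∈ S.erase i, ∏ j ∈ S.erase k, ((k : ℤ) - j) := by
      rw [← Finset.prod_pow_eq_pow_sum]
      refine Finset.prod_dvd_prod_of_dvd _ _ fun k hk => ?_
      rw [hV k (mem_of_mem_erase hk)]
      exact Dvd.intro _ rfl
    have h2 : (p : ℤ) ^ e ∣ f.eval (i : ℤ) := by
      rw [hfe i]
      exact_mod_cast hd i hi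
    have h3 : Polynomial.C ((p : ℤ) ^ (∑ j ∈ S.erase i, w a j)) ∣
        ∏ j ∈ S.erase i, (Polynomial.X - Polynomial.C (j : ℤ)).comp
          (Polynomial.C (a : ℤ) + Polynomial.C ((p : ℤ) ^ (s - 1)) * Polynomial.X) := by
      rw [← Finset.prod_pow_eq_pow_sum, map_prod]
      refine Finset.prod_dvd_prod_of_dvd _ _ fun j hj => ?_
      rw [Polynomial.sub_comp, Polynomial.X_comp, Polynomial.C_comp]
      have h4 : Polynomial.C (a : ℤ) + Polynomial.C ((p : ℤ) ^ (s - 1)) * Polynomial.X -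
          Polynomial.C (j : ℤ) = Polynomial.C ((a : ℤ) - j) +
          Polynomial.C ((p : ℤ) ^ (s - 1)) * Polynomial.X := by
        rw [Polynomial.C_sub]
        ring
      rw [h4]
      refine dvd_add ?_ (Dvd.dvd.mul_right ?_ _)
      · refine map_dvd Polynomial.C ?_
        by_cases haj : a = j
        · rw [haj, sub_self]
          exact dvd_zero _
        · rw [(hwu a j ha (mem_of_mem_erase hj) haj).1]
          exact Dvd.intro _ rfl
      · exact map_dvd Polynomial.C (pow_dvd_pow _ (hw a j))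
    have h5 : W i ≤ ∑ j ∈ S.erase i, w a j := by
      have e1 : ∑ j ∈ S, w a j = w a i + ∑ j ∈ S.erase i, w a j :=
        (Finset.add_sum_erase S _ hi).symm
      have e2 : ∑ j ∈ S, w a j = w a a + ∑ j ∈ S.erase a, w a j :=
        (Finset.add_sum_erase S _ ha).symm
      have e3 := hmax i hi
      have e4 := hw a i
      have e5 := hwd a a rfl
      have e6 : W i = ∑ j ∈ S.erase i, w i j := rfl
      omega
    have h6 : e + ∑ k ∈ S, W k = (∑ k ∈ S.erase i, W k + e) + W i := by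
      rw [← Finset.add_sum_erase S _ hi]
      ring
    rw [h6, pow_add, pow_add, Polynomial.C_mul]
    refine mul_dvd_mul (map_dvd Polynomial.C (mul_dvd_mul h1 h2)) ?_
    exact (map_dvd Polynomial.C (pow_dvd_pow _ h5)).trans h3
  have hcomp : f.comp (Polynomial.C (a : ℤ) + Polynomial.C ((p : ℤ) ^ (s - 1)) * Polynomial.X) =
      ∑ j : Fin (D + 1), Polynomial.C (tay c a (p ^ (s - 1)) j : ℤ) *
        Polynomial.X ^ (j : ℕ) := by
    have h := tay_gen_Few (R := Polynomial ℤ) c a (p ^ (s - 1)) Polynomial.X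
    have hcast : ∀ m : ℕ, (m : Polynomial ℤ) = Polynomial.C (m : ℤ) := fun m => by simp
    rw [hf, Polynomial.sum_comp]
    simp only [Polynomial.mul_comp, Polynomial.C_comp, Polynomial.pow_comp, Polynomial.X_comp]
    simp only [hcast] at h
    rw [h]
    refine Finset.sum_congr rfl fun j _ => ?_
    push_cast
    rfl
  intro n
  have hc : (f.comp (Polynomial.C (a : ℤ) +
      Polynomial.C ((p : ℤ) ^ (s - 1)) * Polynomial.X)).coeff (n : ℕ) =
      (tay c a (p ^ (s - 1)) n : ℤ) := by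
    rw [hcomp, Polynomial.finsetSum_coeff, Finset.sum_eq_single n]
    · rw [Polynomial.coeff_C_mul_X_pow, if_pos rfl]
    · intro i _ hi
      rw [Polynomial.coeff_C_mul_X_pow, if_neg]
      exact fun h => hi (Fin.ext h.symm)
    · exact fun h => absurd (mem_univ n) h
  have hcf := (Polynomial.C_dvd_iff_dvd_coeff _ _).1 hdvd (n : ℕ)
  rw [Polynomial.coeff_C_mul, hc] at hcf
  have hN : ∏ i ∈ S, ∏ j ∈ S.erase i, ((i : ℤ) - j) =
      (p : ℤ) ^ (∑ k ∈ S, W k) * ∏ i ∈ S, ∏ j ∈ S.erase i, u i j := by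
    rw [← Finset.prod_pow_eq_pow_sum, ← Finset.prod_mul_distrib]
    exact Finset.prod_congr rfl fun i hi => hV i hi
  have hpi : Prime (p : ℤ) := Nat.prime_iff_prime_int.1 hp
  rw [hN, add_comm e, pow_add, mul_assoc] at hcf
  have hcf2 := (mul_dvd_mul_iff_left (pow_ne_zero _ hpi.ne_zero)).1 hcf
  have hnd : ¬ (p : ℤ) ∣ ∏ i ∈ S, ∏ j ∈ S.erase i, u i j := by
    intro h
    obtain ⟨i, hi, h⟩ := (Prime.dvd_finsetProd_iff hpi _).1 h
    obtain ⟨j, hj, h⟩ := (Prime.dvd_finsetProd_iff hpi _).1 h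
    rw [mem_erase] at hj
    exact (hwu i j hi hj.2 hj.1.symm).2 h
  have hfin := hpi.pow_dvd_of_dvd_mul_left _ hnd hcf2
  exact_mod_cast hfin

theorem few {D : ℕ} (c : Fin (D + 1) → ℕ) {p : ℕ} (hp : p.Prime) (e s : ℕ) :
    #{a ∈ range (p ^ s) | Nd c p e s a} ≤ D + 1 := by
  rcases Nat.eq_zero_or_pos s with h0 | hs
  · subst h0
    refine (Finset.card_filter_le _ _).trans ?_
    rw [pow_zero, card_range]
    omega
  · by_contra hcon
    obtain ⟨a, ha, hc⟩ := main_Few c hp e s {a ∈ range (p ^ s) | Nd c p e s a}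
      (fun a ha => mem_range.1 (mem_filter.1 ha).1)
      (fun a ha => by
        have h := cn_dvd (mem_filter.1 ha).2.1 0
        rwa [mul_zero, add_zero] at h)
      (by omega)
    rcases (mem_filter.1 ha).2.2 with h | h
    · omega
    · exact h hc

end Pool.Agent.HyP
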