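import Pool.Agent.HyP.Defs
import Pool.Agent.DgP.StDef
import Pool.Agent.PtC.Final

/-!
# Package HyP-NdDef: the nodes are definable

Complete proofs. `tay_def`: finite sums and products, powers with constant exponents. `cn_def`,
`nd_def`, `gd_def`: `p ^ e` and `p ^ s` by `DgP.powB_def` with the bound `M`; `delta_dvd`;
`Delta0.allOf`; `DFun.div` or division by a positive number as in DgP/Final.
-/

set_option autoImplicit false

namespace Pool.Agent.HyP

open Finset Pool.Agent.Grz Pool.Agent.GAvg Pool.Agent.PTr Pool.Agent.MTr Pool.Agent.LPC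
  Pool.Agent.ECD
open scoped Classical

variable {D n : ℕ} {c : Fin (D + 1) → (Fin n → ℕ) → ℕ} {p e s a q M : (Fin n → ℕ) → ℕ}

theorem tay_def (hc : ∀ i, DFun n (c i)) (ha : DFun n a) (hq : DFun n q) (i : Fin (D + 1)) :
    DFun n (fun v => tay (fun i => c i v) (a v) (q v) i) := by
  unfold tay
  exact DFun.finSum _ fun j => (((hc j).mul (DFun.const _)).mul (DFun.powConst ha _)).mul
    (DFun.powConst hq _)

theorem cn_def (hc : ∀ i, DFun n (c i)) (hp : DFun n p) (he : DFun n e) (hs : DFun n s)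
    (ha : DFun n a) (hM : DFun n M) :
    Delta0 n (fun v => (p v) ^ (e v) ≤ M v ∧ (p v) ^ (s v) ≤ M v ∧
      Cn (fun i => c i v) (p v) (e v) (s v) (a v)) := by
  obtain ⟨h1, h2⟩ := DgP.powB_def hp he hM
  obtain ⟨h3, h4⟩ := DgP.powB_def hp hs hM
  refine (h2.and (h4.and (Delta0.allOf fun i => delta_dvd h1 (tay_def hc ha h3 i)))).of_iff
    fun v => ?_
  refine and_congr_right fun h5 => and_congr_right fun h6 => ?_
  simp only [if_pos h5, if_pos h6]
  rfl

theorem nd_def (hc : ∀ i, DFun n (c i)) (hp : DFun n p) (he : DFun n e) (hs : DFun n s)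
    (ha : DFun n a) (hM : DFun n M) :
    Delta0 n (fun v => (p v).Prime ∧ (p v) ^ (e v) ≤ M v ∧ (p v) ^ (s v) ≤ M v ∧
      Nd (fun i => c i v) (p v) (e v) (s v) (a v)) := by
  have h1 := cn_def hc hp he hs ha hM
  have h2 := cn_def hc hp he (hs.sub (DFun.const 1)) ha hM
  refine ((delta_prime hp).and (h1.and ((Delta0.eqFun hs (DFun.const 0)).or h2.not))).of_iff
    fun v => ?_
  constructor
  · rintro ⟨h3, h4, h5, h6, h7⟩
    refine ⟨h3, ⟨h4, h5, h6⟩, h7.imp_right fun h8 h9 => h8 h9.2.2⟩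
  · rintro ⟨h3, ⟨h4, h5, h6⟩, h7⟩
    refine ⟨h3, h4, h5, h6, h7.imp_right fun h8 h9 => h8 ⟨h4, ?_, h9⟩⟩
    exact (Nat.pow_le_pow_right h3.pos (Nat.sub_le _ _)).trans h5

theorem gd_def (hc : ∀ i, DFun n (c i)) (hp : DFun n p) (he : DFun n e) (hs : DFun n s)
    (ha : DFun n a) (hM : DFun n M) (i : Fin (D + 1)) :
    DFun n (fun v => if (p v) ^ (e v) ≤ M v ∧ (p v) ^ (s v) ≤ M v then
      gd (fun i => c i v) (p v) (e v) (s v) (a v) i else 0) := by
  obtain ⟨h1, h2⟩ := DgP.powB_def hp he hM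
  obtain ⟨h3, h4⟩ := DgP.powB_def hp hs hM
  have h5 := DFun.ite (h2.and h4) (DFun.ite (Delta0.eqFun h1 (DFun.const 0)) (DFun.const 0)
    ((tay_def hc ha h3 i).div (h1.sub (DFun.const 1)))) (DFun.const 0)
  refine dfun_congr h5 fun v => ?_
  by_cases h6 : (p v) ^ (e v) ≤ M v ∧ (p v) ^ (s v) ≤ M v
  · rw [if_pos h6, if_pos h6]
    simp only [if_pos h6.1, if_pos h6.2]
    unfold gd
    by_cases h7 : (p v) ^ (e v) = 0
    · rw [if_pos h7, h7, Nat.div_zero]
    · rw [if_neg h7, Nat.sub_add_cancel (Nat.one_le_iff_ne_zero.2 h7)]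
  · rw [if_neg h6, if_neg h6]

end Pool.Agent.HyP
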