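import Pool.Agent.PtC.Small

/-!
# Package HyP-SumS: sums over small definable sets

Complete proof. `dfun_sumSmall`: let `A_v = {x < B v | A x v}` have at most `k` elements. For `i < k` let
`x_i` be the `i`-th element: the `x ∈ A_v` with exactly `i` smaller elements of `A_v`:
`PtC.cnt_small` (`min (i + 1) #{y < x | y ∈ A_v} = i`). The sum of `g` over `A_v` is the sum over `i < k`
of `g (x_i)` if `x_i` exists, and `0` otherwise. For each `i` the function
`v ↦ if ∃ x < B v, x = x_i then g x_i v else 0` is in the class: `x_i` (or `0`) is a function in the class by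
`DFun.ofGraph` with the bound `B`; then `DFun.app` (see PtC/Final, `DFun.app`) or `DFun.comp`; and
`DFun.ite`, `DFun.finSum`.
-/

set_option autoImplicit false

namespace Pool.Agent.HyP

open Finset Pool.Agent.Grz Pool.Agent.GAvg Pool.Agent.PTr Pool.Agent.MTr Pool.Agent.LPC
  Pool.Agent.ECD
open scoped Classical

private theorem cnt_lt_SumS (P : ℕ → Prop) {x y : ℕ} (hxy : x < y) (hx : P x) :
    #{z ∈ range x | P z} < #{z ∈ range y | P z} := by
  apply Finset.card_lt_card
  rw [Finset.ssubset_iff_of_subset]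
  · exact ⟨x, Finset.mem_filter.2 ⟨Finset.mem_range.2 hxy, hx⟩, fun h =>
      absurd (Finset.mem_range.1 (Finset.mem_filter.1 h).1) (lt_irrefl x)⟩
  · intro z hz
    have h := Finset.mem_filter.1 hz
    exact Finset.mem_filter.2 ⟨Finset.mem_range.2 ((Finset.mem_range.1 h.1).trans hxy), h.2⟩

/-- `x` is the element number `i` of `{x < b | P x}` -/
private def El_SumS (P : ℕ → Prop) (i b x : ℕ) : Prop :=
  x < b ∧ P x ∧ #{z ∈ range x | P z} = i

private theorem el_unique_SumS {P : ℕ → Prop} {i b x y : ℕ} (hx : El_SumS P i b x)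
    (hy : El_SumS P i b y) : x = y := by
  rcases lt_trichotomy x y with h | h | h
  · have := cnt_lt_SumS P h hx.2.1
    rw [hx.2.2, hy.2.2] at this
    exact absurd this (lt_irrefl i)
  · exact h
  · have := cnt_lt_SumS P h hy.2.1
    rw [hx.2.2, hy.2.2] at this
    exact absurd this (lt_irrefl i)

private theorem el_def_SumS {n : ℕ} (i : ℕ) {B : (Fin n → ℕ) → ℕ} {A : ℕ → (Fin n → ℕ) → Prop}
    (hB : DFun n B) (hA : Delta0 (n + 1) (fun w => A (w 0) (fun i => w i.succ))) :
    Delta0 (n + 1) (fun w => El_SumS (fun x => A x (fun i => w i.succ)) i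
      (B (fun i => w i.succ)) (w 0)) := by
  have e1 : Delta0 (n + 1 + 1) (fun u => A (u 0) (fun i => u i.succ.succ)) := by
    have := hA.rename (n := n + 1 + 1) (Fin.cons 0 (fun i => i.succ.succ))
    refine this.of_iff ?_
    intro u
    simp [Fin.cons_succ]
  have e2 := PtC.cnt_small (n := n + 1) (i + 1) (B := fun w => w 0)
    (A := fun y w => A y (fun i => w i.succ)) (DFun.proj 0) e1
  have e3 := (Delta0.ltFun (DFun.proj (n := n + 1) 0) hB.weak).and
    (hA.and (Delta0.eqFun e2 (DFun.const i)))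
  refine e3.of_iff ?_
  intro w
  unfold El_SumS
  have e4 : ∀ a : ℕ, a = i ↔ min (i + 1) a = i := by
    intro a
    omega
  rw [e4]

private theorem e_def_SumS {n : ℕ} (i : ℕ) {B : (Fin n → ℕ) → ℕ} {A : ℕ → (Fin n → ℕ) → Prop}
    (hB : DFun n B) (hA : Delta0 (n + 1) (fun w => A (w 0) (fun i => w i.succ))) :
    ∃ e : (Fin n → ℕ) → ℕ, DFun n e ∧
      Delta0 n (fun v => El_SumS (fun x => A x v) i (B v) (e v)) ∧
      ∀ v x, El_SumS (fun x => A x v) i (B v) x → e v = x := by
  have h1 := el_def_SumS i hB hA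
  have hex : ∀ v, ∃ x, x ≤ B v ∧ ((∃ x, El_SumS (fun x => A x v) i (B v) x) →
      El_SumS (fun x => A x v) i (B v) x) ∧
      ((¬ ∃ x, El_SumS (fun x => A x v) i (B v) x) → x = 0) := by
    intro v
    by_cases h : ∃ x, El_SumS (fun x => A x v) i (B v) x
    · obtain ⟨x, hx⟩ := h
      exact ⟨x, hx.1.le, fun _ => hx, fun h => absurd ⟨x, hx⟩ h⟩
    · exact ⟨0, Nat.zero_le _, fun h' => absurd h' h, fun _ => rfl⟩
  choose e he using hex
  have hb : ∀ v, (∃ x, El_SumS (fun x => A x v) i (B v) x) ↔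
      ∃ x, x ≤ B v ∧ El_SumS (fun x => A x v) i (B v) x :=
    fun v => ⟨fun ⟨x, hx⟩ => ⟨x, hx.1.le, hx⟩, fun ⟨x, _, hx⟩ => ⟨x, hx⟩⟩
  have h2 : Delta0 n (fun v => ∃ x, x ≤ B v ∧ El_SumS (fun x => A x v) i (B v) x) :=
    Delta0.bexFun hB h1
  have hd : DFun n e := by
    refine DFun.ofGraph hB (fun v => (he v).1) ?_
    have h3 := h1.or ((h2.rename (n := n + 1) (fun i => i.succ)).not.and
      (Delta0.eqFun (DFun.proj (n := n + 1) 0) (DFun.const 0)))
    refine h3.of_iff ?_
    intro w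
    obtain ⟨h4, h5, h6⟩ := he (fun i => w i.succ)
    rw [hb] at h5 h6
    constructor
    · intro h
      by_cases h7 : ∃ x, x ≤ B (fun i => w i.succ) ∧
        El_SumS (fun x => A x (fun i => w i.succ)) i (B (fun i => w i.succ)) x
      · left
        rw [h]
        exact h5 h7
      · right
        refine ⟨h7, ?_⟩
        rw [h]
        exact h6 h7
    · rintro (h | ⟨h, h'⟩)
      · exact el_unique_SumS h (h5 ⟨_, h.1.le, h⟩)
      · rw [h', h6 h]
  refine ⟨e, hd, ?_, fun v x hx => el_unique_SumS ((he v).2.1 ⟨x, hx⟩) hx⟩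
  refine h2.of_iff fun v => ?_
  constructor
  · intro h
    exact ⟨e v, (he v).1, h⟩
  · rintro ⟨x, _, hx⟩
    exact (he v).2.1 ⟨x, hx⟩

theorem dfun_sumSmall {n : ℕ} (k : ℕ) {B : (Fin n → ℕ) → ℕ} {A : ℕ → (Fin n → ℕ) → Prop}
    {g : ℕ → (Fin n → ℕ) → ℕ} (hB : DFun n B)
    (hA : Delta0 (n + 1) (fun w => A (w 0) (fun i => w i.succ)))
    (hg : DFun (n + 1) (fun w => g (w 0) (fun i => w i.succ)))
    (hk : ∀ v, #{x ∈ range (B v) | A x v} ≤ k) :
    DFun n (fun v => ∑ x ∈ range (B v) with A x v, g x v) := by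
  choose e he1 he2 he3 using fun i : ℕ => e_def_SumS i hB hA
  have h1 : ∀ i : ℕ, DFun n (fun v =>
      if El_SumS (fun x => A x v) i (B v) (e i v) then g (e i v) v else 0) := by
    intro i
    refine DFun.ite (he2 i) ?_ (DFun.const 0)
    exact hg.comp (h := Fin.cons (e i) (fun j v => v j)) (Fin.cases (he1 i)
      (fun j => DFun.proj j))
  refine dfun_congr (DFun.finSum (range k) h1) ?_
  intro v
  have hmaps : ∀ x ∈ (range (B v)).filter (fun x => A x v),
      #{z ∈ range x | A z v} ∈ range k := by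
    intro x hx
    rw [Finset.mem_filter, Finset.mem_range] at hx
    exact Finset.mem_range.2
      ((cnt_lt_SumS (fun z => A z v) hx.1 hx.2).trans_le (hk v))
  rw [← Finset.sum_fiberwise_of_maps_to hmaps]
  refine Finset.sum_congr rfl fun i _ => ?_
  by_cases h : El_SumS (fun x => A x v) i (B v) (e i v)
  · rw [if_pos h, Finset.sum_eq_single_of_mem (e i v)]
    · exact Finset.mem_filter.2 ⟨Finset.mem_filter.2 ⟨Finset.mem_range.2 h.1, h.2.1⟩, h.2.2⟩
    · intro x hx hne
      rw [Finset.mem_filter, Finset.mem_filter, Finset.mem_range] at hx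
      exact absurd (he3 i v x ⟨hx.1.1, hx.1.2, hx.2⟩).symm hne
  · rw [if_neg h]
    refine Finset.sum_eq_zero fun x hx => ?_
    rw [Finset.mem_filter, Finset.mem_filter, Finset.mem_range] at hx
    have h2 : El_SumS (fun x => A x v) i (B v) x := ⟨hx.1.1, hx.1.2, hx.2⟩
    refine absurd ?_ h
    rw [he3 i v x h2]
    exact h2

end Pool.Agent.HyP
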