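import Pool.Agent.HyP.Pow
import Pool.Agent.DgP.StDef
import Pool.Agent.PtC.Final

/-!
# Package HyP-UnDef: solutions with `y` prime to `p`

Complete proofs. `PrimeCase r`: the numbers of the solutions of `y ^ r = f(x)` modulo primes are
definable.

* `un_one`: modulo `p`: `y ^ r = f(x)` with `p ∣ y` means `y = 0` and `p ∣ f(x)` (`r > 0`).
* `zer_def`: the number of the `x < p` with `p ∣ f(x)`: it is `p` if `p` divides all coefficients,
  otherwise at most `D` (`Polynomial.card_roots'` over `ZMod p`), `PtC.cnt_small`.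
* `un_small`: for `p ^ j ≤ C` (a constant) the number `UN r p j g` is at most `C ^ 2` and counts pairs:
  it is the sum over `x < C` (constant range, `DFun.finSum`) of `PtC.cnt_small` with `k = C`; the
  condition `y ^ r ≡ ev g x [MOD p ^ j]`, `¬ p ∣ y`, `y < p ^ j`, by case distinction over the finitely many
  values of `p ^ j`, `p` and `j` (all at most `C`, or `p = 1`; for `p` prime `j < C`).
* `un_def`: `p` prime. If `p ∤ r` then `jr r p k e = 1` for `e < k`: `un_one`, `PrimeCase`, `zer_def`.
  Otherwise `p ≤ r` and `jr r p k e ≤ 2 v_p(r) + 1 ≤ 2 r + 1`, so `p ^ (jr r p k e) ≤ r ^ (2 r + 1)`: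
  `un_small` (case distinction over the finitely many values of `p` and of `jr r p k e`).
-/

set_option autoImplicit false

namespace Pool.Agent.HyP

open Finset Pool.Agent.Grz Pool.Agent.GAvg Pool.Agent.PTr Pool.Agent.MTr Pool.Agent.LPC
  Pool.Agent.ECD
open scoped Classical

/-- the numbers of the solutions of `y ^ r = f(x)` modulo primes are definable -/
def PrimeCase (r : ℕ) : Prop :=
  ∀ (D n : ℕ) (p : (Fin n → ℕ) → ℕ) (c : Fin (D + 1) → (Fin n → ℕ) → ℕ), DFun n p →
    (∀ i, DFun n (c i)) → DFun n (fun v => if (p v).Prime then EN r (p v) (fun i => c i v) else 0)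

theorem un_one {D r p : ℕ} (hp : p.Prime) (hr : 0 < r) (g : Fin (D + 1) → ℕ) :
    UN r p 1 g + #{x ∈ range p | p ∣ ev g x} = EN r p g := by
  have key : ∀ c, UU r p 1 c + (if p ∣ c then 1 else 0) =
      #{y ∈ range p | y ^ r ≡ c [MOD p]} := by
    intro c
    unfold UU
    rw [pow_one]
    have h1 := Finset.card_filter_add_card_filter_not
      (s := {y ∈ range p | y ^ r ≡ c [MOD p]}) (fun y => ¬ p ∣ y)
    rw [← h1]
    congr 1
    · congr 1
      ext y
      simp only [Finset.mem_filter, Finset.mem_range]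
      tauto
    · by_cases hc : p ∣ c
      · rw [if_pos hc]
        symm
        rw [Finset.card_eq_one]
        refine ⟨0, ?_⟩
        ext y
        simp only [Finset.mem_filter, Finset.mem_range, not_not, Finset.mem_singleton]
        constructor
        · rintro ⟨⟨h2, -⟩, h3⟩
          exact Nat.eq_zero_of_dvd_of_lt h3 h2
        · rintro rfl
          refine ⟨⟨hp.pos, ?_⟩, dvd_zero p⟩
          rw [zero_pow hr.ne']
          exact ((Nat.modEq_zero_iff_dvd).2 hc).symm
      · rw [if_neg hc]
        symm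
        rw [Finset.card_eq_zero]
        ext y
        simp only [Finset.mem_filter, Finset.mem_range, not_not, Finset.notMem_empty, iff_false]
        rintro ⟨⟨-, h2⟩, h3⟩
        apply hc
        have h4 : p ∣ y ^ r := dvd_pow h3 hr.ne'
        exact (Nat.modEq_zero_iff_dvd).1 (h2.symm.trans ((Nat.modEq_zero_iff_dvd).2 h4))
  have e1 : EN r p g = ∑ x ∈ range p, #{y ∈ range p | y ^ r ≡ ev g x [MOD p]} := by
    unfold EN
    rw [Finset.card_filter, Finset.sum_product]
    refine Finset.sum_congr rfl fun x _ => ?_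
    rw [Finset.card_filter]
  rw [e1, Finset.card_filter, UN, pow_one, ← Finset.sum_add_distrib]
  exact Finset.sum_congr rfl fun x _ => key _

private theorem ev_UnDef {D n : ℕ} {g : Fin (D + 1) → (Fin n → ℕ) → ℕ}
    (hg : ∀ i, DFun n (g i)) {x : (Fin n → ℕ) → ℕ} (hx : DFun n x) :
    DFun n (fun v => ev (fun i => g i v) (x v)) :=
  DFun.finSum Finset.univ fun i => (hg i).mul (DFun.powConst hx i)

private theorem roots_UnDef {D p : ℕ} (hp : p.Prime) (g : Fin (D + 1) → ℕ)
    (hg : ¬ ∀ i, p ∣ g i) (inst : DecidablePred fun x => p ∣ ev g x) :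
    #(@Finset.filter _ (fun x => p ∣ ev g x) inst (range p)) ≤ D := by
  have : Fact p.Prime := ⟨hp⟩
  obtain ⟨f, hf⟩ : ∃ f : Polynomial (ZMod p), f = ∑ i : Fin (D + 1),
    Polynomial.C (g i : ZMod p) * Polynomial.X ^ (i : ℕ) := ⟨_, rfl⟩
  have hco : ∀ j : Fin (D + 1), f.coeff j = (g j : ZMod p) := by
    intro j
    rw [hf, Polynomial.finsetSum_coeff, Finset.sum_eq_single j]
    · simp
    · intro i _ hij
      rw [Polynomial.coeff_C_mul, Polynomial.coeff_X_pow, if_neg, mul_zero]
      exact fun h => hij (Fin.ext h.symm)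
    · intro h
      exact absurd (Finset.mem_univ j) h
  have hne : f ≠ 0 := by
    intro h
    apply hg
    intro j
    have h1 := hco j
    rw [h, Polynomial.coeff_zero] at h1
    exact (ZMod.natCast_eq_zero_iff _ _).1 h1.symm
  have hdeg : f.natDegree ≤ D := by
    rw [hf]
    refine Polynomial.natDegree_sum_le_of_forall_le _ _ fun i _ => ?_
    exact (Polynomial.natDegree_C_mul_X_pow_le _ _).trans (Nat.lt_succ_iff.1 i.2)
  have h1 : #(@Finset.filter _ (fun x => p ∣ ev g x) inst (range p)) ≤ #f.roots.toFinset := by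
    apply Finset.card_le_card_of_injOn (fun t : ℕ => (t : ZMod p))
    · intro t ht
      have ht' := (Finset.mem_filter.1 (Finset.mem_coe.1 ht)).2
      rw [Finset.mem_coe, Multiset.mem_toFinset, Polynomial.mem_roots hne, Polynomial.IsRoot.def,
        hf, Polynomial.eval_finsetSum]
      have h2 := (ZMod.natCast_eq_zero_iff (ev g t) p).2 ht'
      unfold ev at h2
      push_cast at h2
      simpa using h2
    · intro a ha b hb hab
      have ha' := Finset.mem_range.1 (Finset.mem_filter.1 (Finset.mem_coe.1 ha)).1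
      have hb' := Finset.mem_range.1 (Finset.mem_filter.1 (Finset.mem_coe.1 hb)).1
      have h := (ZMod.natCast_eq_natCast_iff' a b p).1 hab
      rwa [Nat.mod_eq_of_lt ha', Nat.mod_eq_of_lt hb'] at h
  exact (h1.trans (Multiset.toFinset_card_le _)).trans
    ((Polynomial.card_roots' f).trans hdeg)

variable {D n : ℕ} {g : Fin (D + 1) → (Fin n → ℕ) → ℕ} {p : (Fin n → ℕ) → ℕ}

theorem zer_def (hg : ∀ i, DFun n (g i)) (hp : DFun n p) :
    DFun n (fun v => if (p v).Prime then
      #{x ∈ range (p v) | p v ∣ ev (fun i => g i v) x} else 0) := by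
  have h1 : Delta0 n (fun v => ∀ i, p v ∣ g i v) :=
    Delta0.allOf fun i => delta_dvd hp (hg i)
  have h2 := PtC.cnt_small D (B := p) (A := fun x v => p v ∣ ev (fun i => g i v) x) hp
    (delta_dvd hp.weak (ev_UnDef (g := fun i w => g i (fun i => w i.succ))
      (fun i => (hg i).weak) (DFun.proj 0)))
  refine dfun_congr (DFun.ite (delta_prime hp) (DFun.ite h1 hp h2) (DFun.const 0))
    fun v => ?_
  by_cases hpr : (p v).Prime
  · rw [if_pos hpr, if_pos hpr]
    by_cases h3 : ∀ i, p v ∣ g i v
    · rw [if_pos h3]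
      have h4 : ∀ x ∈ range (p v), p v ∣ ev (fun i => g i v) x := fun x _ =>
        Finset.dvd_sum fun i _ => dvd_mul_of_dvd_left (h3 i) _
      rw [Finset.filter_true_of_mem h4, Finset.card_range]
    · rw [if_neg h3]
      rw [min_eq_right (roots_UnDef hpr (fun i => g i v) h3 _)]
      congr
  · rw [if_neg hpr, if_neg hpr]

theorem un_small (hg : ∀ i, DFun n (g i)) (r p₀ j₀ : ℕ) :
    DFun n (fun v => UN r p₀ j₀ (fun i => g i v)) := by
  have h := PtC.small_def (n := n) (p₀ ^ j₀) (R := fun x y v =>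
    ¬ p₀ ∣ y ∧ y ^ r ≡ ev (fun i => g i v) x [MOD p₀ ^ j₀]) fun x y => by
      have h1 : Delta0 n (fun v => y ^ r ≡ ev (fun i => g i v) x [MOD p₀ ^ j₀]) :=
        Delta0.eqFun (DFun.modAny (DFun.const (y ^ r)) (DFun.const (p₀ ^ j₀)))
          (DFun.modAny (ev_UnDef hg (DFun.const x)) (DFun.const (p₀ ^ j₀)))
      exact (delta_dvd (DFun.const p₀) (DFun.const y)).not.and h1
  refine dfun_congr h fun v => ?_
  rw [Finset.card_filter, Finset.sum_product]
  unfold UN UU
  refine Finset.sum_congr rfl fun x _ => ?_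
  rw [Finset.card_filter]
  refine Finset.sum_congr rfl fun y _ => ?_
  congr 1

theorem un_def {r : ℕ} (hr : 0 < r) (H : PrimeCase r) {k e : (Fin n → ℕ) → ℕ}
    (hg : ∀ i, DFun n (g i)) (hp : DFun n p) (hk : DFun n k) (he : DFun n e) :
    DFun n (fun v => if (p v).Prime ∧ e v < k v then
      UN r (p v) (jr r (p v) (k v) (e v)) (fun i => g i v) else 0) := by
  have hlt : Delta0 n (fun v => e v < k v) := Delta0.ltFun he hk
  have hpr := delta_prime hp
  -- the primes not dividing `r`
  have hA : DFun n (fun v => if (p v).Prime ∧ e v < k v ∧ ¬ p v ∣ r then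
      (if (p v).Prime then EN r (p v) (fun i => g i v) else 0) -
      (if (p v).Prime then #{x ∈ range (p v) | p v ∣ ev (fun i => g i v) x} else 0) else 0) :=
    DFun.ite (hpr.and (hlt.and (delta_dvd hp (DFun.const r)).not))
      ((H D n p g hp hg).sub (zer_def hg hp)) (DFun.const 0)
  -- the primes dividing `r`
  have hB : DFun n (fun v => ∑ p₀ ∈ range (r + 1), ∑ j₀ ∈ range (2 * r + 2),
      if (p v = p₀ ∧ p₀.Prime ∧ p₀ ∣ r) ∧ e v < k v ∧
        min (k v - e v) (2 * r.factorization p₀ + 1) = j₀ then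
        UN r p₀ j₀ (fun i => g i v) else 0) := by
    refine DFun.finSum _ fun p₀ => DFun.finSum _ fun j₀ => ?_
    refine DFun.ite (((Delta0.eqFun hp (DFun.const p₀)).and
      ((delta_prime (DFun.const p₀)).and (delta_dvd (DFun.const p₀) (DFun.const r)))).and
      (hlt.and ?_)) (un_small hg r p₀ j₀) (DFun.const 0)
    exact Delta0.eqFun ((hk.sub he).min (DFun.const _)) (DFun.const j₀)
  refine dfun_congr (hA.add hB) fun v => ?_
  by_cases h1 : (p v).Prime ∧ e v < k v
  · rw [if_pos h1]
    obtain ⟨h1, h2⟩ := h1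
    by_cases h3 : p v ∣ r
    · rw [if_neg (fun h => h.2.2 h3), zero_add]
      have hle : p v ≤ r := Nat.le_of_dvd hr h3
      have hf : r.factorization (p v) ≤ r := (Nat.factorization_lt _ hr.ne').le
      symm
      rw [Finset.sum_eq_single (p v), Finset.sum_eq_single (jr r (p v) (k v) (e v)), if_pos]
      · exact ⟨⟨rfl, h1, h3⟩, h2, rfl⟩
      · intro j₀ _ hj
        rw [if_neg]
        rintro ⟨-, -, h5⟩
        exact hj h5.symm
      · intro h5
        exfalso
        apply h5
        rw [Finset.mem_range]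
        have : jr r (p v) (k v) (e v) ≤ 2 * r.factorization (p v) + 1 := min_le_right _ _
        omega
      · intro p₀ _ hp₀
        refine Finset.sum_eq_zero fun j₀ _ => ?_
        rw [if_neg]
        rintro ⟨⟨h5, -⟩, -⟩
        exact hp₀ h5.symm
      · intro h5
        exact absurd (Finset.mem_range.2 (Nat.lt_succ_of_le hle)) h5
    · rw [if_pos ⟨h1, h2, h3⟩, if_pos h1, if_pos h1]
      have h4 : jr r (p v) (k v) (e v) = 1 := by
        unfold jr
        rw [Nat.factorization_eq_zero_of_not_dvd h3]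
        omega
      rw [h4, Finset.sum_eq_zero, add_zero]
      · have h5 := un_one h1 hr (fun i => g i v)
        omega
      · intro p₀ _
        refine Finset.sum_eq_zero fun j₀ _ => ?_
        rw [if_neg]
        rintro ⟨⟨h5, -, h6⟩, -⟩
        rw [← h5] at h6
        exact h3 h6
  · rw [if_neg h1, if_neg (fun h => h1 ⟨h.1, h.2.1⟩), zero_add]
    symm
    refine Finset.sum_eq_zero fun p₀ _ => Finset.sum_eq_zero fun j₀ _ => ?_
    rw [if_neg]
    rintro ⟨⟨h5, h6, -⟩, h7, -⟩
    exact h1 ⟨h5 ▸ h6, h7⟩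

end Pool.Agent.HyP
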