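import Pool.Agent.HyP.Sum
import Pool.Agent.HyP.Few
import Pool.Agent.HyP.SumS
import Pool.Agent.HyP.NdDef
import Pool.Agent.HyP.UnDef

/-!
# Package HyP-PP: prime powers

Complete proof, as `DgP.nm_pp`. `en_sum` (for `p` prime and `p ^ k ≤ M`): the sums over `e < k` and
`s ≤ e` (and `s ≤ k`) have at most `lg M + 2` terms: `dfun_sumPoly` (twice; replace the ranges by
`min k (lg M + 1)` and so on, and put the conditions `e < k`, `s ≤ e` into the terms), the sum over the
nodes `a < p ^ s` is `dfun_sumSmall (D + 1)` with `few` (`a < p ^ s ≤ M`: use the range `M + 1` and the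
condition `a < p ^ s` in the set, or the value of `p ^ s` by `powB_def`), its condition is `nd_def`, the
term by `powB_def` (all exponents are at most `k`; the products are at most `M ^ 3`), `gd_def`,
`un_def`, with one, two and three additional variables. All terms are `0` unless `p` is prime and
`p ^ k ≤ M`.
-/

set_option autoImplicit false

namespace Pool.Agent.HyP

open Finset Pool.Agent.Grz Pool.Agent.GAvg Pool.Agent.PTr Pool.Agent.MTr Pool.Agent.LPC
  Pool.Agent.ECD
open scoped Classical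

private theorem le_lg_PP {p k M : ℕ} (hp : p.Prime) (h : p ^ k ≤ M) : k ≤ lg M := by
  have hM : M ≠ 0 := by
    have := pow_pos hp.pos k
    omega
  exact (Nat.le_log_iff_pow_le (by norm_num) hM).2
    ((Nat.pow_le_pow_left hp.two_le k).trans h)

/-- powers of `p` with exponents at most `k` -/
private theorem pow_PP {n : ℕ} {p k M x : (Fin n → ℕ) → ℕ} (hp : DFun n p) (hM : DFun n M)
    (hx : DFun n x) : ∃ q : (Fin n → ℕ) → ℕ, DFun n q ∧
      ∀ v, (p v).Prime → (p v) ^ (k v) ≤ M v → x v ≤ k v → q v = (p v) ^ (x v) := by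
  refine ⟨_, (DgP.powB_def hp hx hM).1, fun v h1 h2 h3 => ?_⟩
  rw [if_pos ((Nat.pow_le_pow_right h1.pos h3).trans h2)]

/-- the terms of the sum over the nodes -/
private theorem term_PP {D n r : ℕ} (hr : 0 < r) (H : PrimeCase r)
    {c : Fin (D + 1) → (Fin n → ℕ) → ℕ} {p k e s a M : (Fin n → ℕ) → ℕ}
    (hc : ∀ i, DFun n (c i)) (hp : DFun n p) (hk : DFun n k) (he : DFun n e) (hs : DFun n s)
    (ha : DFun n a) (hM : DFun n M) :
    ∃ t : (Fin n → ℕ) → ℕ, DFun n t ∧ ∀ v, (p v).Prime → (p v) ^ (k v) ≤ M v → e v < k v →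
      s v ≤ e v → t v =
        if r ∣ e v then (p v) ^ (e v - e v / r) * ((p v) ^ (k v - s v - jr r (p v) (k v) (e v)) *
          UN r (p v) (jr r (p v) (k v) (e v)) (gd (fun i => c i v) (p v) (e v) (s v) (a v)))
        else 0 := by
  have hj : DFun n (fun v => min (k v - e v)
      (2 * (if (p v).Prime then r.factorization (p v) else 0) + 1)) :=
    DFun.min (hk.sub he) (((DFun.const 2).mul (DgP.val_def hp (DFun.const r))).add (DFun.const 1))
  obtain ⟨q1, hq1, hq1'⟩ := pow_PP (k := k) hp hM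
    (he.sub (DFun.divPos he (DFun.const r) fun _ => hr))
  obtain ⟨q2, hq2, hq2'⟩ := pow_PP (k := k) hp hM ((hk.sub hs).sub hj)
  have hu := un_def hr H (fun i => gd_def hc hp he hs ha hM i) hp hk he
  refine ⟨_, DFun.ite (delta_dvd (DFun.const r) he) (hq1.mul (hq2.mul hu)) (DFun.const 0),
    fun v h1 h2 h3 h4 => ?_⟩
  have h5 : (p v) ^ (e v) ≤ M v := (Nat.pow_le_pow_right h1.pos h3.le).trans h2
  have h6 : (p v) ^ (s v) ≤ M v := (Nat.pow_le_pow_right h1.pos h4).trans h5
  have h7 : (fun i => if (p v) ^ (e v) ≤ M v ∧ (p v) ^ (s v) ≤ M v then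
      gd (fun i => c i v) (p v) (e v) (s v) (a v) i else 0) =
      gd (fun i => c i v) (p v) (e v) (s v) (a v) := by
    funext i
    rw [if_pos ⟨h5, h6⟩]
  by_cases hre : r ∣ e v
  · rw [if_pos hre, if_pos hre, hq1' v h1 h2 ((Nat.sub_le _ _).trans h3.le),
      hq2' v h1 h2 ((Nat.sub_le _ _).trans (Nat.sub_le _ _)),
      h7, if_pos (show (p v).Prime ∧ e v < k v from ⟨h1, h3⟩), if_pos h1]
    rfl
  · rw [if_neg hre, if_neg hre]

/-- sums over the nodes -/
private theorem node_PP {D n : ℕ} {c : Fin (D + 1) → (Fin n → ℕ) → ℕ}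
    {p k e s M : (Fin n → ℕ) → ℕ} {g : ℕ → (Fin n → ℕ) → ℕ}
    (hc : ∀ i, DFun n (c i)) (hp : DFun n p) (hk : DFun n k) (he : DFun n e) (hs : DFun n s)
    (hM : DFun n M) (hg : DFun (n + 1) (fun w => g (w 0) (fun i => w i.succ))) :
    DFun n (fun v => if (p v).Prime ∧ (p v) ^ (k v) ≤ M v ∧ e v ≤ k v ∧ s v ≤ e v then
      ∑ a ∈ range ((p v) ^ (s v)) with Nd (fun i => c i v) (p v) (e v) (s v) a, g a v
      else 0) := by
  have hcond : Delta0 n (fun v => (p v).Prime ∧ (p v) ^ (k v) ≤ M v ∧ e v ≤ k v ∧ s v ≤ e v) :=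
    (delta_prime hp).and ((DgP.powB_def hp hk hM).2.and
      ((Delta0.leFun he hk).and (Delta0.leFun hs he)))
  obtain ⟨A, hAd⟩ : ∃ A : ℕ → (Fin n → ℕ) → Prop, ∀ a v, A a v ↔
      (a < (if (p v) ^ (s v) ≤ M v then (p v) ^ (s v) else 0) ∧
        (p v).Prime ∧ (p v) ^ (e v) ≤ M v ∧ (p v) ^ (s v) ≤ M v ∧
          Nd (fun i => c i v) (p v) (e v) (s v) a) := ⟨_, fun _ _ => Iff.rfl⟩
  have hA : Delta0 (n + 1) (fun w => A (w 0) (fun i => w i.succ)) :=
    ((Delta0.ltFun (DFun.proj 0) (DgP.powB_def hp hs hM).1.weak).and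
      (nd_def (c := fun i w => c i fun j => w j.succ) (a := fun w => w 0)
        (fun i => (hc i).weak) hp.weak he.weak hs.weak (DFun.proj 0) hM.weak)).of_iff
      fun w => hAd _ _
  have key : ∀ v : Fin n → ℕ, ∀ a : ℕ, (a < M v + 1 ∧ A a v) ↔
      ((p v).Prime ∧ (p v) ^ (e v) ≤ M v ∧ (p v) ^ (s v) ≤ M v) ∧
        a < (p v) ^ (s v) ∧ Nd (fun i => c i v) (p v) (e v) (s v) a := by
    intro v a
    rw [hAd]
    constructor
    · rintro ⟨-, h1, h2, h3, h4, h5⟩
      rw [if_pos h4] at h1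
      exact ⟨⟨h2, h3, h4⟩, h1, h5⟩
    · rintro ⟨⟨h2, h3, h4⟩, h1, h5⟩
      rw [if_pos h4]
      exact ⟨by omega, h1, h2, h3, h4, h5⟩
  have h := dfun_sumSmall (D + 1) (B := fun v => M v + 1) (g := g) (hM.add (DFun.const 1)) hA hg
    (fun v => by
      by_cases h1 : (p v).Prime ∧ (p v) ^ (e v) ≤ M v ∧ (p v) ^ (s v) ≤ M v
      · refine (card_le_card ?_).trans (few (fun i => c i v) h1.1 (e v) (s v))
        intro a ha
        have h2 := mem_filter.1 ha
        have h3 := (key v a).1 ⟨mem_range.1 h2.1, h2.2⟩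
        exact mem_filter.2 ⟨mem_range.2 h3.2.1, h3.2.2⟩
      · refine le_of_eq_of_le (card_eq_zero.2 ?_) (Nat.zero_le _)
        rw [eq_empty_iff_forall_notMem]
        intro a ha
        have h2 := mem_filter.1 ha
        exact h1 ((key v a).1 ⟨mem_range.1 h2.1, h2.2⟩).1)
  refine dfun_congr (DFun.ite hcond h (DFun.const 0)) fun v => ?_
  by_cases hv : (p v).Prime ∧ (p v) ^ (k v) ≤ M v ∧ e v ≤ k v ∧ s v ≤ e v
  · rw [if_pos hv, if_pos hv]
    refine sum_congr (Finset.ext fun a => ?_) fun _ _ => rfl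
    obtain ⟨h1, h2, h3, h4⟩ := hv
    have h5 : (p v) ^ (e v) ≤ M v := (Nat.pow_le_pow_right h1.pos h3).trans h2
    have h6 : (p v) ^ (s v) ≤ M v := (Nat.pow_le_pow_right h1.pos h4).trans h5
    constructor
    · intro ha
      have h7 := mem_filter.1 ha
      have h8 := (key v a).2 ⟨⟨h1, h5, h6⟩, mem_range.1 h7.1, h7.2⟩
      exact mem_filter.2 ⟨mem_range.2 h8.1, h8.2⟩
    · intro ha
      have h7 := mem_filter.1 ha
      have h8 := ((key v a).1 ⟨mem_range.1 h7.1, h7.2⟩).2
      exact mem_filter.2 ⟨mem_range.2 h8.1, h8.2⟩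
  · rw [if_neg hv, if_neg hv]

/-- the sum over the nodes of level `(e, s)` -/
theorem lev_def {D n r : ℕ} (hr : 0 < r) (H : PrimeCase r)
    {c : Fin (D + 1) → (Fin n → ℕ) → ℕ} {p k e s M : (Fin n → ℕ) → ℕ}
    (hc : ∀ i, DFun n (c i)) (hp : DFun n p) (hk : DFun n k) (he : DFun n e) (hs : DFun n s)
    (hM : DFun n M) :
    DFun n (fun v => if (p v).Prime ∧ (p v) ^ (k v) ≤ M v ∧ e v < k v ∧ s v ≤ e v then
      ∑ a ∈ range ((p v) ^ (s v)) with Nd (fun i => c i v) (p v) (e v) (s v) a,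
        if r ∣ e v then (p v) ^ (e v - e v / r) * ((p v) ^ (k v - s v - jr r (p v) (k v) (e v)) *
          UN r (p v) (jr r (p v) (k v) (e v)) (gd (fun i => c i v) (p v) (e v) (s v) a)) else 0
      else 0) := by
  obtain ⟨t, ht, ht'⟩ := term_PP hr H (c := fun i w => c i fun j : Fin n => w j.succ)
    (p := fun w => p fun j => w j.succ) (k := fun w => k fun j => w j.succ)
    (e := fun w => e fun j => w j.succ) (s := fun w => s fun j => w j.succ)
    (a := fun w => w 0) (M := fun w => M fun j => w j.succ)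
    (fun i => (hc i).weak) hp.weak hk.weak he.weak hs.weak (DFun.proj 0) hM.weak
  have h1 := node_PP (g := fun a v => t (Fin.cons a v)) hc hp hk he hs hM (by
    refine dfun_congr ht fun w => ?_
    congr 1
    funext j
    refine Fin.cases ?_ (fun j => ?_) j
    · rfl
    · rfl)
  refine dfun_congr (DFun.ite (Delta0.ltFun he hk) h1 (DFun.const 0)) fun v => ?_
  by_cases hv : (p v).Prime ∧ (p v) ^ (k v) ≤ M v ∧ e v < k v ∧ s v ≤ e v
  · obtain ⟨h2, h3, h4, h5⟩ := hv
    rw [if_pos ⟨h2, h3, h4, h5⟩, if_pos h4, if_pos ⟨h2, h3, h4.le, h5⟩]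
    refine sum_congr rfl fun a _ => ?_
    exact (ht' (Fin.cons a v) h2 h3 h4 h5).symm
  · rw [if_neg hv]
    by_cases h4 : e v < k v
    · rw [if_pos h4, if_neg fun h => hv ⟨h.1, h.2.1, h4, h.2.2.2⟩]
    · rw [if_neg h4]

/-- the sum over the last nodes -/
theorem last_def {D n : ℕ} {c : Fin (D + 1) → (Fin n → ℕ) → ℕ} {p k s M : (Fin n → ℕ) → ℕ}
    (hc : ∀ i, DFun n (c i)) (hp : DFun n p) (hk : DFun n k) (hs : DFun n s) (hM : DFun n M) :
    DFun n (fun v => if (p v).Prime ∧ (p v) ^ (k v) ≤ M v ∧ s v ≤ k v then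
      ∑ a ∈ range ((p v) ^ (s v)) with Nd (fun i => c i v) (p v) (k v) (s v) a,
        (p v) ^ (k v - s v) else 0) := by
  obtain ⟨q, hq, hq'⟩ := pow_PP (k := k) hp hM (hk.sub hs)
  have h1 := node_PP (g := fun _ v => q v) hc hp hk hk hs hM hq.weak
  refine dfun_congr h1 fun v => ?_
  by_cases hv : (p v).Prime ∧ (p v) ^ (k v) ≤ M v ∧ s v ≤ k v
  · obtain ⟨h2, h3, h4⟩ := hv
    rw [if_pos ⟨h2, h3, h4⟩, if_pos ⟨h2, h3, le_rfl, h4⟩]
    refine sum_congr rfl fun a _ => ?_
    exact (hq' v h2 h3 (Nat.sub_le _ _)).symm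
  · rw [if_neg hv, if_neg fun h => hv ⟨h.1, h.2.1, h.2.2.2⟩]

theorem en_pp {D n r : ℕ} (hr : 0 < r) (H : PrimeCase r) {c : Fin (D + 1) → (Fin n → ℕ) → ℕ}
    {p k M : (Fin n → ℕ) → ℕ} (hc : ∀ i, DFun n (c i)) (hp : DFun n p) (hk : DFun n k)
    (hM : DFun n M) :
    DFun n (fun v => if (p v).Prime ∧ (p v) ^ (k v) ≤ M v then
      EN r ((p v) ^ (k v)) (fun i => c i v) else 0) := by
  have hL : DFun n (fun v => lg (M v) + 1) := (DFun.lg hM).add (DFun.const 1)
  have hin := lev_def (D := D) (n := n + 1 + 1) hr H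
    (c := fun i w => c i fun j => w j.succ.succ)
    (p := fun w => p fun j => w j.succ.succ) (k := fun w => k fun j => w j.succ.succ)
    (e := fun w => w (Fin.succ 0)) (s := fun w => w 0) (M := fun w => M fun j => w j.succ.succ)
    (fun i => (hc i).weak.weak) hp.weak.weak hk.weak.weak (DFun.proj _) (DFun.proj 0)
    hM.weak.weak
  have hmid := dfun_sumPoly (n := n + 1) 1
    (S := fun w => min (w 0 + 1) (lg (M fun j => w j.succ) + 1)) (N := fun w => M fun j => w j.succ)
    (g := fun s w => if (p fun j => w j.succ).Prime ∧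
        (p fun j => w j.succ) ^ (k fun j => w j.succ) ≤ (M fun j => w j.succ) ∧
        w 0 < (k fun j => w j.succ) ∧ s ≤ w 0 then
      ∑ a ∈ range ((p fun j => w j.succ) ^ s) with
          Nd (fun i => c i fun j => w j.succ) (p fun j => w j.succ) (w 0) s a,
        if r ∣ w 0 then (p fun j => w j.succ) ^ (w 0 - w 0 / r) * ((p fun j => w j.succ) ^
            ((k fun j => w j.succ) - s - jr r (p fun j => w j.succ) (k fun j => w j.succ) (w 0)) *
          UN r (p fun j => w j.succ) (jr r (p fun j => w j.succ) (k fun j => w j.succ) (w 0))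
            (gd (fun i => c i fun j => w j.succ) (p fun j => w j.succ) (w 0) s a)) else 0
      else 0)
    hin (DFun.min ((DFun.proj 0).add (DFun.const 1)) hL.weak) hM.weak
    (fun w => (min_le_right _ _).trans (by rw [pow_one]))
  have hout := dfun_sumPoly (n := n) 1
    (S := fun v => min (k v) (lg (M v) + 1)) (N := M)
    (g := fun e v => ∑ s ∈ range (min (e + 1) (lg (M v) + 1)),
      if (p v).Prime ∧ (p v) ^ (k v) ≤ M v ∧ e < k v ∧ s ≤ e then
      ∑ a ∈ range ((p v) ^ s) with Nd (fun i => c i v) (p v) e s a,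
        if r ∣ e then (p v) ^ (e - e / r) * ((p v) ^ (k v - s - jr r (p v) (k v) e) *
          UN r (p v) (jr r (p v) (k v) e) (gd (fun i => c i v) (p v) e s a)) else 0
      else 0)
    hmid (DFun.min hk hL) hM (fun v => (min_le_right _ _).trans (by rw [pow_one]))
  have hlt := last_def (D := D) (n := n + 1) (c := fun i w => c i fun j => w j.succ)
    (p := fun w => p fun j => w j.succ) (k := fun w => k fun j => w j.succ)
    (s := fun w => w 0) (M := fun w => M fun j => w j.succ)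
    (fun i => (hc i).weak) hp.weak hk.weak (DFun.proj 0) hM.weak
  have hlast := dfun_sumPoly (n := n) 1
    (S := fun v => min (k v + 1) (lg (M v) + 1)) (N := M)
    (g := fun s v => if (p v).Prime ∧ (p v) ^ (k v) ≤ M v ∧ s ≤ k v then
      ∑ a ∈ range ((p v) ^ s) with Nd (fun i => c i v) (p v) (k v) s a,
        (p v) ^ (k v - s) else 0)
    hlt (DFun.min (hk.add (DFun.const 1)) hL) hM
    (fun v => (min_le_right _ _).trans (by rw [pow_one]))
  obtain ⟨q, hq, hq'⟩ := pow_PP (k := k) hp hM (hk.sub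
    (DFun.divPos ((hk.add (DFun.const r)).sub (DFun.const 1)) (DFun.const r) fun _ => hr))
  have hcond : Delta0 n (fun v => (p v).Prime ∧ (p v) ^ (k v) ≤ M v) :=
    (delta_prime hp).and (DgP.powB_def hp hk hM).2
  refine dfun_congr (DFun.ite hcond (hout.add (hq.mul hlast)) (DFun.const 0)) fun v => ?_
  by_cases hv : (p v).Prime ∧ (p v) ^ (k v) ≤ M v
  · obtain ⟨h1, h2⟩ := hv
    have h3 := le_lg_PP h1 h2
    rw [if_pos ⟨h1, h2⟩, if_pos ⟨h1, h2⟩, en_sum _ h1 hr, hq' v h1 h2 (Nat.sub_le _ _),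
      show min (k v) (lg (M v) + 1) = k v by omega,
      show min (k v + 1) (lg (M v) + 1) = k v + 1 by omega]
    congr 1
    · refine sum_congr rfl fun e he => ?_
      rw [mem_range] at he
      rw [show min (e + 1) (lg (M v) + 1) = e + 1 by omega]
      refine sum_congr rfl fun s hs => ?_
      rw [mem_range] at hs
      rw [if_pos ⟨h1, h2, he, by omega⟩]
    · congr 1
      refine sum_congr rfl fun s hs => ?_
      rw [mem_range] at hs
      rw [if_pos ⟨h1, h2, by omega⟩]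
  · rw [if_neg hv, if_neg hv]

end Pool.Agent.HyP
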