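import Pool.Agent.HyP.Tay

/-!
# Package HyP-Part: the partition by the nodes

Complete proof. Let `p ^ e ∣ ev c x`. By `cn_top` and `cn_succ` there is a least `s` with
`Cn c p e s x`, and `s ≤ e`. Then `a = x % p ^ s` is a node: `Nd c p e s a` (`cn_mod`; for `s ≥ 1`,
`a` and `x` are congruent modulo `p ^ (s - 1)`: `cn_mod` twice), and it is the only pair `(s, a)` with
`s ≤ e`, `a < p ^ s`, `x ≡ a` modulo `p ^ s` and `Nd c p e s a` (`cn_succ`: `Cn` is monotone in `s`).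
Conversely, if `Nd c p e s a` and `x ≡ a` modulo `p ^ s`, then `p ^ e ∣ ev c x` (`cn_dvd`). The `x < p ^ k`
congruent to `a < p ^ s` modulo `p ^ s` (`s ≤ k`) are the `a + p ^ s t`, `t < p ^ (k - s)`.
-/

set_option autoImplicit false

namespace Pool.Agent.HyP

open Finset
open scoped Classical

private theorem cn_mono_Part {D : ℕ} {c : Fin (D + 1) → ℕ} {p e s s' a : ℕ}
    (h : Cn c p e s a) (hs : s ≤ s') : Cn c p e s' a := by
  induction s', hs using Nat.le_induction with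
  | base => exact h
  | succ s' _ ih => exact cn_succ ih

private theorem cn_low_Part {D : ℕ} {c : Fin (D + 1) → ℕ} {p e s s' a : ℕ} (hp : p.Prime)
    (hs : s ≤ s') (t : ℕ) : Cn c p e s (a + p ^ s' * t) ↔ Cn c p e s a := by
  obtain ⟨d, rfl⟩ := Nat.exists_eq_add_of_le hs
  rw [pow_add, mul_assoc]
  exact cn_add hp _

/-- the least `s` -/
private noncomputable def lv_Part {D : ℕ} (c : Fin (D + 1) → ℕ) (p e x : ℕ) : ℕ :=
  sInf {s | Cn c p e s x}

private theorem lv_spec_Part {D : ℕ} {c : Fin (D + 1) → ℕ} {p e x : ℕ} (hp : p.Prime)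
    (hx : p ^ e ∣ ev c x) : Cn c p e (lv_Part c p e x) x ∧ lv_Part c p e x ≤ e ∧
      Nd c p e (lv_Part c p e x) (x % p ^ lv_Part c p e x) := by
  have h1 : e ∈ {s | Cn c p e s x} := cn_top hx
  have h2 : lv_Part c p e x ≤ e := Nat.sInf_le h1
  have h3 : Cn c p e (lv_Part c p e x) x := Nat.sInf_mem ⟨e, h1⟩
  refine ⟨h3, h2, (cn_mod hp).2 h3, ?_⟩
  rcases Nat.eq_zero_or_pos (lv_Part c p e x) with h0 | h0
  · exact Or.inl h0
  · refine Or.inr fun h4 => ?_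
    have h5 : x = x % p ^ lv_Part c p e x + p ^ lv_Part c p e x * (x / p ^ lv_Part c p e x) :=
      (Nat.mod_add_div _ _).symm
    have h6 : Cn c p e (lv_Part c p e x - 1) x := by
      have h7 := (cn_low_Part (c := c) (e := e) (a := x % p ^ lv_Part c p e x) hp
        (Nat.sub_le (lv_Part c p e x) 1) (x / p ^ lv_Part c p e x)).2 h4
      rwa [← h5] at h7
    have h8 : lv_Part c p e x ≤ lv_Part c p e x - 1 := Nat.sInf_le h6
    omega

private theorem lv_eq_Part {D : ℕ} {c : Fin (D + 1) → ℕ} {p e s a : ℕ} (hp : p.Prime)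
    (h : Nd c p e s a) (t : ℕ) : lv_Part c p e (a + p ^ s * t) = s := by
  have h1 : Cn c p e s (a + p ^ s * t) := (cn_add hp t).2 h.1
  have h2 : lv_Part c p e (a + p ^ s * t) ≤ s := Nat.sInf_le h1
  refine le_antisymm h2 ?_
  by_contra hlt
  rw [not_le] at hlt
  have h3 : Cn c p e (lv_Part c p e (a + p ^ s * t)) (a + p ^ s * t) :=
    Nat.sInf_mem (s := {s' | Cn c p e s' (a + p ^ s * t)}) ⟨s, h1⟩
  rcases h.2 with h4 | h4
  · omega
  · apply h4
    have h5 : Cn c p e (s - 1) (a + p ^ s * t) := cn_mono_Part h3 (by omega)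
    exact (cn_low_Part hp (Nat.sub_le s 1) t).1 h5

theorem part {D : ℕ} (c : Fin (D + 1) → ℕ) {p : ℕ} (hp : p.Prime) {e k : ℕ} (hek : e ≤ k)
    (h : ℕ → ℕ) :
    ∑ x ∈ range (p ^ k) with p ^ e ∣ ev c x, h x =
      ∑ s ∈ range (e + 1), ∑ a ∈ range (p ^ s) with Nd c p e s a,
        ∑ t ∈ range (p ^ (k - s)), h (a + p ^ s * t) := by
  rw [Finset.sum_sigma', Finset.sum_sigma']
  refine Finset.sum_bij'
    (i := fun x _ => (⟨⟨lv_Part c p e x, x % p ^ lv_Part c p e x⟩, x / p ^ lv_Part c p e x⟩ :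
      (Σ _ : (Σ _ : ℕ, ℕ), ℕ)))
    (j := fun y _ => y.1.2 + p ^ y.1.1 * y.2) ?_ ?_ ?_ ?_ ?_
  · intro x hx
    obtain ⟨hx1, hx2⟩ := Finset.mem_filter.1 hx
    obtain ⟨h1, h2, h3⟩ := lv_spec_Part hp hx2
    have hps : 0 < p ^ lv_Part c p e x := pow_pos hp.pos _
    refine Finset.mem_sigma.2 ⟨Finset.mem_sigma.2 ⟨?_, ?_⟩, ?_⟩
    · exact Finset.mem_range.2 (Nat.lt_succ_of_le h2)
    · exact Finset.mem_filter.2 ⟨Finset.mem_range.2 (Nat.mod_lt _ hps), h3⟩
    · refine Finset.mem_range.2 (Nat.div_lt_of_lt_mul ?_)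
      rw [← pow_add, Nat.add_sub_cancel' (h2.trans hek)]
      exact Finset.mem_range.1 hx1
  · intro y hy
    obtain ⟨hy1, hy2⟩ := Finset.mem_sigma.1 hy
    obtain ⟨hy3, hy4⟩ := Finset.mem_sigma.1 hy1
    obtain ⟨hy5, hy6⟩ := Finset.mem_filter.1 hy4
    have h1 := Finset.mem_range.1 hy2
    have h2 := Nat.le_of_lt_succ (Finset.mem_range.1 hy3)
    have h3 := Finset.mem_range.1 hy5
    refine Finset.mem_filter.2 ⟨Finset.mem_range.2 ?_, cn_dvd hy6.1 _⟩
    calc y.1.2 + p ^ y.1.1 * y.2 < p ^ y.1.1 + p ^ y.1.1 * y.2 := Nat.add_lt_add_right h3 _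
      _ = p ^ y.1.1 * (y.2 + 1) := by ring
      _ ≤ p ^ y.1.1 * p ^ (k - y.1.1) := Nat.mul_le_mul_left _ h1
      _ = p ^ k := by rw [← pow_add, Nat.add_sub_cancel' (h2.trans hek)]
  · intro x _
    exact Nat.mod_add_div _ _
  · intro y hy
    obtain ⟨hy1, hy2⟩ := Finset.mem_sigma.1 hy
    obtain ⟨hy3, hy4⟩ := Finset.mem_sigma.1 hy1
    obtain ⟨hy5, hy6⟩ := Finset.mem_filter.1 hy4
    have h3 := Finset.mem_range.1 hy5
    obtain ⟨⟨s, a⟩, t⟩ := y
    dsimp only at hy6 h3 ⊢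
    have h4 : lv_Part c p e (a + p ^ s * t) = s := lv_eq_Part hp hy6 t
    rw [h4, Nat.add_mul_mod_self_left, Nat.mod_eq_of_lt h3,
      Nat.add_mul_div_left _ _ (pow_pos hp.pos _), Nat.div_eq_of_lt h3, zero_add]
  · intro x _
    dsimp only
    rw [Nat.mod_add_div]

end Pool.Agent.HyP
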