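import Pool.Agent.HyP.Defs
import Pool.Agent.DgP.Lift

/-!
# Package HyP-Pow: powers modulo prime powers

Complete proofs.

* `pw`: the `y < p ^ k` with `y ^ r = b` modulo `p ^ k`. If `p ^ k ∣ b`: `p ^ k ∣ y ^ r` if and only if
  `p ^ w ∣ y` with `w = ⌈k / r⌉ = (k + r - 1) / r`, so there are `p ^ (k - w)` such `y`; all summands with
  `e < k` are `0`, because `UU r p j u = 0` if `p ∣ u` and `j, r > 0`. If `p ^ k ∤ b`, let `e < k` be the
  valuation of `b`; then `y ^ r` has the valuation `e`, so `r ∣ e` and `y = p ^ (e / r) y'` with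
  `y' < p ^ (k - e / r)` prime to `p`, and the condition is `y' ^ r = b / p ^ e` modulo `p ^ (k - e)`; each
  `y'` modulo `p ^ (k - e)` has `p ^ (e - e / r)` representatives. The summands for `e' < e` are `0`
  (`p ∣ b / p ^ e'`), those for `e' > e` are excluded by `p ^ e' ∣ b`.
* `uu_lift`: `DgP.hensel` with `a = 1` (`k = c + t`), induction on `t`.
* `uu_mod`: `UU r p j u` depends on `u` modulo `p ^ j` only.
-/

set_option autoImplicit false

namespace Pool.Agent.HyP

open Finset
open scoped Classical

theorem uu_zero {r p j u : ℕ} (hp : p.Prime) (hr : 0 < r) (hj : 0 < j) (h : p ∣ u) :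
    UU r p j u = 0 := by
  unfold UU
  rw [card_eq_zero, filter_eq_empty_iff]
  rintro y _ ⟨h1, h2⟩
  have h3 : y ^ r ≡ u [MOD p] := h2.of_dvd (dvd_pow_self p hj.ne')
  exact h1 (hp.dvd_of_dvd_pow ((h3.dvd_iff (dvd_refl p)).2 h))

theorem uu_mod {r p j u v : ℕ} (h : u ≡ v [MOD p ^ j]) : UU r p j u = UU r p j v := by
  unfold UU
  congr 1
  refine filter_congr fun y _ => ?_
  exact ⟨fun h1 => ⟨h1.1, h1.2.trans h⟩, fun h1 => ⟨h1.1, h1.2.trans h.symm⟩⟩

theorem uu_lift {r p j : ℕ} (hp : p.Prime) (hr : 0 < r) (hj : 2 * r.factorization p + 1 ≤ j)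
    (u t : ℕ) : UU r p (j + t) u = UU r p j u := by
  induction t with
  | zero => rfl
  | succ t ih =>
    rw [← ih]
    have h := DgP.hensel hp (a := 1) (f := r) (k := j + t)
      (fun h => hp.one_lt.ne' (Nat.dvd_one.1 h)) hr (by omega) u
    simp only [one_mul] at h
    exact h

private theorem pow_le {p r e v y' : ℕ} (hp : p.Prime) (h' : ¬ p ∣ y')
    (h1 : p ^ e ∣ (p ^ v * y') ^ r) : e ≤ v * r := by
  rw [mul_pow, ← pow_mul] at h1
  have h2 : (p ^ e).Coprime (y' ^ r) :=
    Nat.Coprime.pow_left e (Nat.Coprime.pow_right r ((hp.coprime_iff_not_dvd).2 h'))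
  exact (Nat.pow_dvd_pow_iff_le_right hp.one_lt).1 (h2.dvd_of_dvd_mul_right h1)

private theorem pow_per (P : ℕ → Prop) [DecidablePred P] (M q : ℕ) (hP : ∀ a y, P (M * a + y) ↔ P y) :
    #{y ∈ range (M * q) | P y} = q * #{y ∈ range M | P y} := by
  rw [card_filter, card_filter]
  induction q with
  | zero => simp
  | succ q ih =>
    rw [Nat.mul_succ, sum_range_add, ih, Nat.succ_mul]
    congr 1
    refine sum_congr rfl fun y _ => ?_
    simp only [hP]

private theorem pow_mult {p : ℕ} (hp : 0 < p) {k w : ℕ} (hw : w ≤ k) :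
    #{y ∈ range (p ^ k) | p ^ w ∣ y} = p ^ (k - w) := by
  have h1 : p ^ k = p ^ w * p ^ (k - w) := by
    rw [← pow_add]
    congr 1
    omega
  have hpw : 0 < p ^ w := pow_pos hp w
  rw [h1, pow_per (fun y => p ^ w ∣ y) (p ^ w) (p ^ (k - w)) fun a y =>
    Nat.dvd_add_right (Dvd.intro a rfl)]
  have h2 : #{y ∈ range (p ^ w) | p ^ w ∣ y} = 1 := by
    rw [card_eq_one]
    refine ⟨0, ?_⟩
    ext y
    rw [mem_filter, mem_range, mem_singleton]
    constructor
    · rintro ⟨h3, h4⟩
      exact Nat.eq_zero_of_dvd_of_lt h4 h3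
    · rintro rfl
      exact ⟨hpw, dvd_zero _⟩
  rw [h2, mul_one]

theorem pw {r p : ℕ} (hp : p.Prime) (hr : 0 < r) (k b : ℕ) :
    #{y ∈ range (p ^ k) | y ^ r ≡ b [MOD p ^ k]} =
      (∑ e ∈ range k, if r ∣ e ∧ p ^ e ∣ b then
        p ^ (e - e / r) * UU r p (k - e) (b / p ^ e) else 0) +
      if p ^ k ∣ b then p ^ (k - (k + r - 1) / r) else 0 := by
  have hp0 : 0 < p := hp.pos
  by_cases hb : p ^ k ∣ b
  · -- all solutions are divisible by `p ^ w`
    rw [if_pos hb, sum_eq_zero, zero_add]
    · rw [← pow_mult hp0 (k := k) (w := (k + r - 1) / r)]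
      · congr 1
        refine filter_congr fun y _ => ?_
        have hb1 : b ≡ 0 [MOD p ^ k] := (Nat.modEq_zero_iff_dvd).2 hb
        have hb2 : y ^ r ≡ b [MOD p ^ k] ↔ p ^ k ∣ y ^ r := by
          rw [← Nat.modEq_zero_iff_dvd]
          exact ⟨fun h => h.trans hb1, fun h => h.trans hb1.symm⟩
        rw [hb2]
        constructor
        · intro h
          rcases Nat.eq_zero_or_pos y with rfl | hy
          · exact dvd_zero _
          · obtain ⟨v, y', hy', rfl⟩ := Nat.exists_eq_pow_mul_and_not_dvd hy.ne' p hp.one_lt.ne'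
            have h1 := pow_le hp hy' h
            refine Dvd.dvd.mul_right (pow_dvd_pow p ?_) y'
            have h2 : (k + r - 1) / r < v + 1 := by
              rw [Nat.div_lt_iff_lt_mul hr]
              have h3 : (v + 1) * r = v * r + r := by ring
              omega
            omega
        · rintro ⟨z, rfl⟩
          rw [mul_pow, ← pow_mul]
          refine Dvd.dvd.mul_right (pow_dvd_pow p ?_) _
          have h1 := Nat.div_add_mod (k + r - 1) r
          have h2 := Nat.mod_lt (k + r - 1) hr
          have h3 : (k + r - 1) / r * r = r * ((k + r - 1) / r) := mul_comm _ _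
          omega
      · rcases Nat.eq_zero_or_pos k with rfl | hk
        · rw [Nat.div_eq_of_lt (by omega)]
        · rw [← Nat.lt_succ_iff, Nat.div_lt_iff_lt_mul hr]
          have h1 : (k + 1) * r = k * r + r := by ring
          have h2 : k ≤ k * r := Nat.le_mul_of_pos_right k hr
          show k + r - 1 < (k + 1) * r
          omega
    · intro e he
      rw [mem_range] at he
      split_ifs with h
      · rw [uu_zero hp hr (by omega), mul_zero]
        have h1 : p ^ e * p ∣ b := by
          rw [← pow_succ]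
          exact (pow_dvd_pow p he).trans hb
        obtain ⟨z, rfl⟩ := h1
        rw [mul_assoc, Nat.mul_div_cancel_left _ (pow_pos hp0 e)]
        exact Dvd.intro z rfl
      · rfl
  · rw [if_neg hb, add_zero]
    have hb0 : b ≠ 0 := by
      rintro rfl
      exact hb (dvd_zero _)
    obtain ⟨e, u, hu, hbe⟩ := Nat.exists_eq_pow_mul_and_not_dvd hb0 p hp.one_lt.ne'
    have hek : e < k := by
      by_contra h
      apply hb
      rw [hbe]
      exact Dvd.dvd.mul_right (pow_dvd_pow p (not_lt.1 h)) u
    have hee : ∀ e', p ^ e' ∣ b ↔ e' ≤ e := by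
      intro e'
      constructor
      · intro h
        have h1 := pow_le (r := 1) (e := e') (v := e) hp hu (by rw [pow_one, ← hbe]; exact h)
        omega
      · intro h
        rw [hbe]
        exact Dvd.dvd.mul_right (pow_dvd_pow p h) u
    rw [sum_eq_single e]
    · have hdiv : b / p ^ e = u := by
        rw [hbe, Nat.mul_div_cancel_left _ (pow_pos hp0 e)]
      rw [hdiv]
      -- the valuation of a solution
      have hval : ∀ y, y ^ r ≡ b [MOD p ^ k] → ∃ v y', ¬ p ∣ y' ∧ y = p ^ v * y' ∧ e = v * r := by
        intro y hy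
        have hy0 : y ≠ 0 := by
          rintro rfl
          rw [zero_pow hr.ne'] at hy
          exact hb ((Nat.modEq_zero_iff_dvd).1 hy.symm)
        obtain ⟨v, y', hy', rfl⟩ := Nat.exists_eq_pow_mul_and_not_dvd hy0 p hp.one_lt.ne'
        refine ⟨v, y', hy', rfl, le_antisymm ?_ ?_⟩
        · refine pow_le hp hy' ?_
          exact (hy.dvd_iff (pow_dvd_pow p hek.le)).2 ((hee e).2 le_rfl)
        · by_contra hlt
          have h1 : p ^ (e + 1) ∣ (p ^ v * y') ^ r := by
            rw [mul_pow, ← pow_mul]
            exact Dvd.dvd.mul_right (pow_dvd_pow p (by omega)) _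
          have h2 := (hee (e + 1)).1 ((hy.dvd_iff (pow_dvd_pow p hek)).1 h1)
          omega
      by_cases hre : r ∣ e
      · rw [if_pos ⟨hre, (hee e).2 le_rfl⟩]
        obtain ⟨f, rfl⟩ := hre
        have hf : r * f / r = f := Nat.mul_div_cancel_left f hr
        rw [hf]
        have hfe : f ≤ r * f := Nat.le_mul_of_pos_left f hr
        have hpf : 0 < p ^ f := pow_pos hp0 f
        have h1 : (range (p ^ k)).filter (fun y => y ^ r ≡ b [MOD p ^ k]) =
            ((range (p ^ (k - f))).filter
              (fun y => ¬ p ∣ y ∧ y ^ r ≡ u [MOD p ^ (k - r * f)])).image (fun y => p ^ f * y) := by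
          have hk1 : p ^ k = p ^ f * p ^ (k - f) := by
            rw [← pow_add]
            congr 1
            omega
          have hk2 : p ^ k = p ^ (r * f) * p ^ (k - r * f) := by
            rw [← pow_add]
            congr 1
            omega
          ext y
          rw [mem_filter, mem_image, mem_range]
          constructor
          · rintro ⟨h1, h2⟩
            obtain ⟨v, y', hy', rfl, hv⟩ := hval y h2
            have hvf : v = f := by
              rw [mul_comm v r] at hv
              exact (Nat.eq_of_mul_eq_mul_left hr hv).symm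
            subst hvf
            refine ⟨y', ?_, rfl⟩
            rw [mem_filter, mem_range]
            refine ⟨?_, hy', ?_⟩
            · rw [hk1] at h1
              exact Nat.lt_of_mul_lt_mul_left h1
            · rw [mul_pow, ← pow_mul, mul_comm v r, hbe, hk2] at h2
              exact Nat.ModEq.mul_left_cancel' (pow_pos hp0 _).ne' h2
          · rintro ⟨y', hy', rfl⟩
            rw [mem_filter, mem_range] at hy'
            refine ⟨?_, ?_⟩
            · rw [hk1]
              exact Nat.mul_lt_mul_of_pos_left hy'.1 hpf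
            · rw [mul_pow, ← pow_mul, mul_comm f r, hbe, hk2]
              exact Nat.ModEq.mul_left' _ hy'.2.2
        rw [h1, card_image_of_injective _ fun a b h => Nat.eq_of_mul_eq_mul_left hpf h]
        have hk3 : p ^ (k - f) = p ^ (k - r * f) * p ^ (r * f - f) := by
          rw [← pow_add]
          congr 1
          omega
        have hj : 0 < k - r * f := by omega
        rw [hk3, pow_per (fun y => ¬ p ∣ y ∧ y ^ r ≡ u [MOD p ^ (k - r * f)])
          (p ^ (k - r * f)) (p ^ (r * f - f)) fun a y => ?_]
        · rfl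
        · have h2 : p ∣ p ^ (k - r * f) * a + y ↔ p ∣ y :=
            Nat.dvd_add_right ((dvd_pow_self p hj.ne').mul_right a)
          have h3 : p ^ (k - r * f) * a + y ≡ y [MOD p ^ (k - r * f)] := by
            have h4 : p ^ (k - r * f) * a ≡ 0 [MOD p ^ (k - r * f)] :=
              (Nat.modEq_zero_iff_dvd).2 (Dvd.intro a rfl)
            have h5 := h4.add_right y
            rwa [zero_add] at h5
          rw [h2]
          have h6 := h3.pow r
          exact ⟨fun h => ⟨h.1, h6.symm.trans h.2⟩, fun h => ⟨h.1, h6.trans h.2⟩⟩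
      · rw [if_neg fun h => hre h.1, card_eq_zero, filter_eq_empty_iff]
        intro y _ hy
        obtain ⟨v, y', -, -, hv⟩ := hval y hy
        exact hre ⟨v, by rw [hv, mul_comm]⟩
    · intro e' _ hne
      split_ifs with h
      · have h1 := (hee e').1 h.2
        have h2 : e' < e := lt_of_le_of_ne h1 hne
        rw [uu_zero hp hr (by omega), mul_zero]
        have h3 : p ^ e' * p ∣ b := by
          rw [← pow_succ]
          exact (hee (e' + 1)).2 h2
        obtain ⟨z, hz⟩ := h3
        rw [hz, mul_assoc, Nat.mul_div_cancel_left _ (pow_pos hp0 e')]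
        exact Dvd.intro z rfl
      · rfl
    · intro h
      exact absurd (mem_range.2 hek) h

end Pool.Agent.HyP
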