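import Pool.Agent.HyP.Part
import Pool.Agent.HyP.Pow

/-!
# Package HyP-Sum: the number of the solutions modulo a prime power as a sum over the nodes

Complete proofs.

* `un_lift`: for `j₀ = jr r p k e` and `j = k - e`, every `t < p ^ n`, `n ≥ j`:
  `∑_{t < p ^ n} UU r p j (ev g t) = p ^ (n - j₀) UN r p j₀ g`: `UU r p j u = UU r p j₀ u` (`uu_lift`), it
  depends on `u` modulo `p ^ j₀` (`uu_mod`), hence on `t` modulo `p ^ j₀`, and each class has
  `p ^ (n - j₀)` elements in the range.
* `en_sum`: `EN r (p ^ k) c = ∑_x #{y | y ^ r = ev c x}`; `pw`; exchange the sums; for fixed `e` with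
  `r ∣ e`: `∑_{x, p ^ e ∣ ev c x} UU r p (k - e) (ev c x / p ^ e)` is by `part` the sum over the nodes of
  `∑_{t < p ^ (k - s)} UU r p (k - e) (ev (gd c p e s a) t)` (`ev_gd`), by `un_lift` with `n = k - s`
  (`s ≤ e`) equal to `p ^ (k - s - jr r p k e) UN r p (jr r p k e) (gd c p e s a)`. The number of the
  `x < p ^ k` with `p ^ k ∣ ev c x` is by `part` (`e = k`, `h = 1`) the sum of `p ^ (k - s)` over the nodes.
-/

set_option autoImplicit false

namespace Pool.Agent.HyP

open Finset
open scoped Classical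

private theorem per_Sum (a : ℕ) (F : ℕ → ℕ) (h : ∀ t, F (t + a) = F t) (b : ℕ) :
    ∑ t ∈ range (a * b), F t = b * ∑ t ∈ range a, F t := by
  have hp : Function.Periodic F a := h
  induction b with
  | zero => simp
  | succ b ih =>
    rw [Nat.mul_succ, sum_range_add, ih, Nat.succ_mul]
    congr 1
    refine sum_congr rfl fun t _ => ?_
    have h1 := hp.nat_mul b t
    rw [Nat.cast_id] at h1
    rw [← h1, add_comm, mul_comm]

private theorem ev_mod_Sum {D : ℕ} (g : Fin (D + 1) → ℕ) {m x y : ℕ} (h : x ≡ y [MOD m]) :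
    ev g x ≡ ev g y [MOD m] := by
  unfold ev
  refine Nat.ModEq.sum fun i _ => ?_
  exact (h.pow _).mul_left _

theorem un_lift {D r p k e n : ℕ} (g : Fin (D + 1) → ℕ) (hp : p.Prime) (hr : 0 < r) (he : e < k)
    (hn : k - e ≤ n) :
    ∑ t ∈ range (p ^ n), UU r p (k - e) (ev g t) =
      p ^ (n - jr r p k e) * UN r p (jr r p k e) g := by
  have hj : jr r p k e ≤ n := (min_le_left _ _).trans hn
  have h1 : ∀ u, UU r p (k - e) u = UU r p (jr r p k e) u := by
    intro u
    unfold jr
    rcases le_total (k - e) (2 * r.factorization p + 1) with hle | hle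
    · rw [min_eq_left hle]
    · rw [min_eq_right hle]
      obtain ⟨t, ht⟩ := Nat.exists_eq_add_of_le hle
      rw [ht]
      exact uu_lift hp hr le_rfl u t
  have h2 : p ^ n = p ^ jr r p k e * p ^ (n - jr r p k e) := by
    rw [← pow_add, Nat.add_sub_cancel' hj]
  rw [sum_congr rfl fun t _ => h1 (ev g t), h2,
    per_Sum (p ^ jr r p k e) (fun t => UU r p (jr r p k e) (ev g t)) (fun t => ?_)]
  · rfl
  · exact uu_mod (ev_mod_Sum g (by
      have h3 : p ^ jr r p k e ≡ 0 [MOD p ^ jr r p k e] := (Nat.modEq_zero_iff_dvd).mpr dvd_rfl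
      simpa using (Nat.ModEq.refl t).add h3))

theorem en_sum {D r p : ℕ} (c : Fin (D + 1) → ℕ) (hp : p.Prime) (hr : 0 < r) (k : ℕ) :
    EN r (p ^ k) c =
      (∑ e ∈ range k, ∑ s ∈ range (e + 1), ∑ a ∈ range (p ^ s) with Nd c p e s a,
        if r ∣ e then p ^ (e - e / r) * (p ^ (k - s - jr r p k e) *
          UN r p (jr r p k e) (gd c p e s a)) else 0) +
      p ^ (k - (k + r - 1) / r) *
        ∑ s ∈ range (k + 1), ∑ a ∈ range (p ^ s) with Nd c p k s a, p ^ (k - s) := by
  have h0 : EN r (p ^ k) c = ∑ x ∈ range (p ^ k),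
      #{y ∈ range (p ^ k) | y ^ r ≡ ev c x [MOD p ^ k]} := by
    unfold EN
    rw [card_filter, sum_product]
    refine sum_congr rfl fun x _ => ?_
    rw [card_filter]
  rw [h0, sum_congr rfl fun x _ => pw hp hr k (ev c x), sum_add_distrib]
  congr 1
  · rw [sum_comm]
    refine sum_congr rfl fun e he => ?_
    rw [mem_range] at he
    by_cases hre : r ∣ e
    · have h1 : (∑ x ∈ range (p ^ k), if r ∣ e ∧ p ^ e ∣ ev c x then
          p ^ (e - e / r) * UU r p (k - e) (ev c x / p ^ e) else 0) =
          ∑ x ∈ range (p ^ k) with p ^ e ∣ ev c x,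
            p ^ (e - e / r) * UU r p (k - e) (ev c x / p ^ e) := by
        rw [sum_filter]
        refine sum_congr rfl fun x _ => ?_
        by_cases hx : p ^ e ∣ ev c x
        · rw [if_pos ⟨hre, hx⟩, if_pos hx]
        · rw [if_neg fun h => hx h.2, if_neg hx]
      rw [h1, part c hp he.le]
      refine sum_congr rfl fun s hs => sum_congr rfl fun a ha => ?_
      rw [mem_range] at hs
      rw [mem_filter] at ha
      rw [if_pos hre, ← mul_sum]
      congr 1
      rw [← un_lift (gd c p e s a) hp hr he (show k - e ≤ k - s by omega)]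
      refine sum_congr rfl fun t _ => ?_
      rw [ev_gd hp ha.2.1]
    · rw [sum_eq_zero fun x _ => if_neg fun h => hre h.1]
      refine (sum_eq_zero fun s _ => sum_eq_zero fun a _ => ?_).symm
      rw [if_neg hre]
  · rw [← sum_filter, part c hp le_rfl (fun _ => p ^ (k - (k + r - 1) / r)), mul_sum]
    refine sum_congr rfl fun s _ => ?_
    rw [mul_sum]
    refine sum_congr rfl fun a _ => ?_
    rw [sum_const, card_range, smul_eq_mul, mul_comm]

end Pool.Agent.HyP
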