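import Pool.Agent.HyP.Defs

/-!
# Package HyP-Tay: translation of a polynomial

Complete proofs.

* `tay_ev`: binomial theorem: `(a + q t) ^ j = ∑_i (j choose i) a ^ (j - i) (q t) ^ i`, the terms with
  `i > j` are `0`.
* `cn_dvd`: all terms of `tay_ev` are divisible. `ev_gd`: divide.
* `cn_add`: the coefficients of `f (a + q b + q T)` are `∑_j tay c a q j * (j choose i) * b ^ (j - i)`
  (`tay (tay c a q) b 1`): compare with the definition: both sides are
  `∑_j c_j (j choose i) (a + q b) ^ (j - i) q ^ i`; use `tay_ev` for polynomials, or: the polynomials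
  `∑ c_i X ^ i` composed with `a + q X` (`Polynomial.comp`), whose coefficients are `tay`. So `p ^ e`
  divides all coefficients in `a + p ^ s T` if and only if it does in `a + p ^ s b + p ^ s T` (for one
  direction translate by `b`; for the other the same over `ℤ` with `-b`, or take the multiple
  `p ^ e * b - b` of `-b` modulo `p ^ e`: translation by `b` and then by `p ^ e b - b` is translation by
  `p ^ e b`, which does not change the coefficients modulo `p ^ e`).
* `cn_mod`: `a = a % p ^ s + p ^ s (a / p ^ s)` and `cn_add`.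
* `cn_succ`: `tay c a (p q) i = p ^ i tay c a q i`.
* `cn_top`: `tay c a (p ^ e) i` is divisible by `p ^ (e i)`, and for `i = 0` it is `ev c a`.
-/

set_option autoImplicit false

namespace Pool.Agent.HyP

open Finset

variable {D : ℕ} {c : Fin (D + 1) → ℕ} {p e s a : ℕ}

private theorem tay_gen_Tay {R : Type*} [CommSemiring R] (c : Fin (D + 1) → ℕ) (a q : ℕ) (t : R) :
    ∑ i : Fin (D + 1), (tay c a q i : R) * t ^ (i : ℕ) =
      ∑ j : Fin (D + 1), (c j : R) * ((a : R) + (q : R) * t) ^ (j : ℕ) := by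
  simp only [tay, Nat.cast_sum, Finset.sum_mul]
  rw [Finset.sum_comm]
  refine Finset.sum_congr rfl fun j _ => ?_
  rw [add_comm (a : R), add_pow, Finset.mul_sum]
  rw [Fin.sum_univ_eq_sum_range (fun i =>
    ((c j * (j : ℕ).choose i * a ^ ((j : ℕ) - i) * q ^ i : ℕ) : R) * t ^ i) (D + 1)]
  have hsub : range ((j : ℕ) + 1) ⊆ range (D + 1) := by
    intro x hx
    rw [mem_range] at hx ⊢
    have := j.2
    omega
  rw [← Finset.sum_subset hsub]
  · refine Finset.sum_congr rfl fun m _ => ?_
    push_cast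
    ring
  · intro x _ hx
    rw [mem_range, not_lt] at hx
    rw [Nat.choose_eq_zero_of_lt (by omega)]
    simp

theorem tay_ev (c : Fin (D + 1) → ℕ) (a q t : ℕ) : ev (tay c a q) t = ev c (a + q * t) := by
  have h := tay_gen_Tay (R := ℕ) c a q t
  simp only [Nat.cast_id] at h
  exact h

theorem cn_dvd (h : Cn c p e s a) (t : ℕ) : p ^ e ∣ ev c (a + p ^ s * t) := by
  rw [← tay_ev]
  exact Finset.dvd_sum fun i _ => Dvd.dvd.mul_right (h i) _

theorem ev_gd (hp : p.Prime) (h : Cn c p e s a) (t : ℕ) :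
    ev (gd c p e s a) t = ev c (a + p ^ s * t) / p ^ e := by
  refine Nat.eq_div_of_mul_eq_right (pow_pos hp.pos e).ne' ?_
  rw [← tay_ev]
  unfold ev
  rw [Finset.mul_sum]
  refine Finset.sum_congr rfl fun i _ => ?_
  rw [← mul_assoc]
  congr 1
  exact Nat.mul_div_cancel' (h i)

private theorem coeff_Tay (c : Fin (D + 1) → ℕ) (k : Fin (D + 1)) :
    (∑ i : Fin (D + 1), (c i : Polynomial ℕ) * Polynomial.X ^ (i : ℕ)).coeff (k : ℕ) = c k := by
  rw [Polynomial.finsetSum_coeff, Finset.sum_eq_single k]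
  · rw [← Polynomial.C_eq_natCast, Polynomial.coeff_C_mul_X_pow, if_pos rfl, Nat.cast_id]
  · intro i _ hi
    rw [← Polynomial.C_eq_natCast, Polynomial.coeff_C_mul_X_pow, if_neg]
    exact fun h => hi (Fin.ext h.symm)
  · exact fun h => absurd (mem_univ k) h

private theorem tay_tay_Tay (c : Fin (D + 1) → ℕ) (a q b : ℕ) (i : Fin (D + 1)) :
    tay c (a + q * b) q i = tay (tay c a q) b 1 i := by
  rw [← coeff_Tay (tay c (a + q * b) q) i, ← coeff_Tay (tay (tay c a q) b 1) i]
  congr 1
  rw [tay_gen_Tay, tay_gen_Tay, tay_gen_Tay]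
  refine Finset.sum_congr rfl fun j _ => ?_
  congr 2
  push_cast
  ring

private theorem cn_add1_Tay (b : ℕ) (h : Cn c p e s a) : Cn c p e s (a + p ^ s * b) := by
  intro i
  rw [tay_tay_Tay]
  unfold tay
  refine Finset.dvd_sum fun j _ => ?_
  exact (((h j).mul_right _).mul_right _).mul_right _

private theorem cn_congr_Tay {a' : ℕ} (hm : a ≡ a' [MOD p ^ e]) (h : Cn c p e s a) :
    Cn c p e s a' := by
  intro i
  have hi := h i
  rw [← Nat.modEq_zero_iff_dvd] at hi ⊢
  refine Nat.ModEq.trans ?_ hi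
  unfold tay
  refine Nat.ModEq.symm ?_
  have : ∀ t : Finset (Fin (D + 1)),
      ∑ j ∈ t, c j * (j : ℕ).choose i * a ^ ((j : ℕ) - i) * (p ^ s) ^ (i : ℕ) ≡
      ∑ j ∈ t, c j * (j : ℕ).choose i * a' ^ ((j : ℕ) - i) * (p ^ s) ^ (i : ℕ) [MOD p ^ e] := by
    intro t
    induction t using Finset.induction_on with
    | empty => exact Nat.ModEq.refl _
    | insert j t hj ih =>
      rw [Finset.sum_insert hj, Finset.sum_insert hj]
      exact Nat.ModEq.add (Nat.ModEq.mul_right _ (Nat.ModEq.mul_left _ (hm.pow _))) ih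
  exact this univ

theorem cn_add (hp : p.Prime) (b : ℕ) : Cn c p e s (a + p ^ s * b) ↔ Cn c p e s a := by
  refine ⟨fun h => ?_, cn_add1_Tay b⟩
  have h1 := cn_add1_Tay (p ^ e * b - b) h
  have hle : b ≤ p ^ e * b := Nat.le_mul_of_pos_left b (pow_pos hp.pos e)
  have h2 : a + p ^ s * b + p ^ s * (p ^ e * b - b) = a + p ^ e * (p ^ s * b) := by
    rw [add_assoc, ← mul_add, Nat.add_sub_cancel' hle]
    ring
  rw [h2] at h1
  refine cn_congr_Tay ?_ h1
  exact Nat.ModEq.add_left a (Nat.modEq_zero_iff_dvd.2 (Dvd.intro _ rfl))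

theorem cn_mod (hp : p.Prime) : Cn c p e s (a % p ^ s) ↔ Cn c p e s a := by
  have h := cn_add (c := c) (e := e) (s := s) (a := a % p ^ s) hp (a / p ^ s)
  rw [Nat.mod_add_div] at h
  exact h.symm

theorem cn_succ (h : Cn c p e s a) : Cn c p e (s + 1) a := by
  intro i
  have : tay c a (p ^ (s + 1)) i = tay c a (p ^ s) i * p ^ (i : ℕ) := by
    unfold tay
    rw [Finset.sum_mul]
    refine Finset.sum_congr rfl fun j _ => ?_
    rw [pow_succ, mul_pow]
    ring
  rw [this]
  exact (h i).mul_right _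

theorem cn_top (h : p ^ e ∣ ev c a) : Cn c p e e a := by
  intro i
  by_cases hi : (i : ℕ) = 0
  · have : tay c a (p ^ e) i = ev c a := by
      unfold tay ev
      refine Finset.sum_congr rfl fun j _ => ?_
      rw [hi]
      simp
    rw [this]
    exact h
  · unfold tay
    refine Finset.dvd_sum fun j _ => ?_
    exact Dvd.dvd.mul_left (dvd_pow_self _ hi) _

end Pool.Agent.HyP
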